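import Pool.Agent.SemiHex.Limit
import Pool.Agent.GenPolygon.Basic

set_option autoImplicit false

/-!
# The incidence graph of the limit is a generalized hexagon
-/

namespace Pool.Agent.SemiHex

open SimpleGraph Pool.Agent.GenPolygon

section

variable {𝓛 : Set (Finset ℕ)} {δ : ℕ → ℕ → ℕ}

/-- incidence -/
def I (𝓛 : Set (Finset ℕ)) (x : ℕ) (l : 𝓛) : Prop := x ∈ l.1

lemma adj_lr {x : ℕ} {l : 𝓛} (h : x ∈ l.1) : (inc (I 𝓛)).Adj (Sum.inl x) (Sum.inr l) :=
  (inc_adj_lr (I := I 𝓛)).2 h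

lemma adj_rl {x : ℕ} {l : 𝓛} (h : x ∈ l.1) : (inc (I 𝓛)).Adj (Sum.inr l) (Sum.inl x) :=
  (inc_adj_rl (I := I 𝓛)).2 h

lemma of_lr {x : ℕ} {l : 𝓛} (h : (inc (I 𝓛)).Adj (Sum.inl x) (Sum.inr l)) : x ∈ l.1 :=
  (inc_adj_lr (I := I 𝓛)).1 h

lemma of_rl {x : ℕ} {l : 𝓛} (h : (inc (I 𝓛)).Adj (Sum.inr l) (Sum.inl x)) : x ∈ l.1 :=
  (inc_adj_rl (I := I 𝓛)).1 h

lemma Lim.one (H : Lim 𝓛 δ) {l : Finset ℕ} (hl : l ∈ 𝓛) {x y : ℕ} (hx : x ∈ l)
    (hy : y ∈ l) (hne : x ≠ y) : δ x y = 1 := by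
  obtain ⟨k, hk, h1, h2⟩ := H.pat x l hl
  have h0 : δ x x = 0 := (H.zero x x).2 rfl
  have hkx : x = k := by
    by_contra hcon
    have := h2 x hx hcon
    omega
  subst hkx
  have := h2 y hy (fun h => hne h.symm)
  omega

/-- the nearest point -/
noncomputable def near (H : Lim 𝓛 δ) (x : ℕ) (l : 𝓛) : ℕ := Classical.choose (H.pat x l.1 l.2)

lemma near_mem (H : Lim 𝓛 δ) (x : ℕ) (l : 𝓛) : near H x l ∈ l.1 :=
  (Classical.choose_spec (H.pat x l.1 l.2)).1

lemma near_le (H : Lim 𝓛 δ) (x : ℕ) (l : 𝓛) : δ x (near H x l) ≤ 2 :=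
  (Classical.choose_spec (H.pat x l.1 l.2)).2.1

lemma near_ne (H : Lim 𝓛 δ) (x : ℕ) (l : 𝓛) {j : ℕ} (hj : j ∈ l.1) (hne : j ≠ near H x l) :
    δ x j = δ x (near H x l) + 1 :=
  (Classical.choose_spec (H.pat x l.1 l.2)).2.2 j hj hne

/-- distance from a point in the incidence graph -/
noncomputable def D (H : Lim 𝓛 δ) (x : ℕ) : ℕ ⊕ 𝓛 → ℕ :=
  Sum.elim (fun y => 2 * δ x y) (fun l => 2 * δ x (near H x l) + 1)

lemma D_inl (H : Lim 𝓛 δ) (x y : ℕ) : D H x (Sum.inl y) = 2 * δ x y := rfl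

lemma D_inr (H : Lim 𝓛 δ) (x : ℕ) (l : 𝓛) : D H x (Sum.inr l) = 2 * δ x (near H x l) + 1 := rfl

lemma D_self (H : Lim 𝓛 δ) (x : ℕ) : D H x (Sum.inl x) = 0 := by
  rw [D_inl, (H.zero x x).2 rfl]

lemma D_inc (H : Lim 𝓛 δ) (x y : ℕ) (l : 𝓛) (hy : y ∈ l.1) :
    D H x (Sum.inr l) = D H x (Sum.inl y) + 1 ∨ D H x (Sum.inl y) = D H x (Sum.inr l) + 1 := by
  rw [D_inl, D_inr]
  by_cases hne : y = near H x l
  · rw [← hne]; left; rfl
  · have := near_ne H x l hy hne
    right; omega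

lemma D_adj (H : Lim 𝓛 δ) (x : ℕ) {u v : ℕ ⊕ 𝓛} (h : (inc (I 𝓛)).Adj u v) :
    D H x v = D H x u + 1 ∨ D H x u = D H x v + 1 := by
  rcases u with u | u <;> rcases v with v | v
  · exact absurd h inc_not_adj_ll
  · exact D_inc H x u v (of_lr h)
  · exact (D_inc H x v u (of_rl h)).symm
  · exact absurd h inc_not_adj_rr

lemma D_uniq (H : Lim 𝓛 δ) (x : ℕ) {u u' v : ℕ ⊕ 𝓛} (h5 : D H x v ≤ 5)
    (h : (inc (I 𝓛)).Adj u v) (h' : (inc (I 𝓛)).Adj u' v) (e : D H x v = D H x u + 1)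
    (e' : D H x v = D H x u' + 1) : u = u' := by
  rcases v with v | v
  · rcases u with u | u
    · exact absurd h inc_not_adj_ll
    rcases u' with u' | u'
    · exact absurd h' inc_not_adj_ll
    have hu : v ∈ u.1 := of_rl h
    have hu' : v ∈ u'.1 := of_rl h'
    rw [D_inl] at h5 e e'
    rw [D_inr] at e e'
    have := H.uniq x v (by omega) u.1 u.2 u'.1 u'.2 hu hu' _ (near_mem H x u) _ (near_mem H x u')
      (by omega) (by omega)
    rw [Subtype.ext this]
  · rcases u with u | u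
    swap
    · exact absurd h inc_not_adj_rr
    rcases u' with u' | u'
    swap
    · exact absurd h' inc_not_adj_rr
    have hu : u ∈ v.1 := of_lr h
    have hu' : u' ∈ v.1 := of_lr h'
    rw [D_inr, D_inl] at e e'
    have e1 : u = near H x v := by
      by_contra hne
      have := near_ne H x v hu hne
      omega
    have e2 : u' = near H x v := by
      by_contra hne
      have := near_ne H x v hu' hne
      omega
    rw [e1, e2]

lemma D_walk (H : Lim 𝓛 δ) (x : ℕ) {u v : ℕ ⊕ 𝓛} (w : (inc (I 𝓛)).Walk u v) :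
    D H x v ≤ D H x u + w.length := by
  induction w with
  | nil => simp
  | cons h p ih =>
    have := D_adj H x h
    rw [Walk.length_cons]
    omega

lemma D_getVert (H : Lim 𝓛 δ) (x : ℕ) {u v : ℕ ⊕ 𝓛} (w : (inc (I 𝓛)).Walk u v) (i : ℕ)
    (hi : i ≤ w.length) : D H x (w.getVert i) ≤ D H x u + i := by
  induction i with
  | zero => simp
  | succ i ih =>
    have h1 := ih (by omega)
    have h2 := D_adj H x (w.adj_getVert_succ (i := i) (by omega))
    omega

lemma D_getVert' (H : Lim 𝓛 δ) (x : ℕ) {u v : ℕ ⊕ 𝓛} (w : (inc (I 𝓛)).Walk u v) (i : ℕ)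
    (hi : i ≤ w.length) : D H x (w.getVert (w.length - i)) ≤ D H x v + i := by
  induction i with
  | zero => simp
  | succ i ih =>
    have h1 := ih (by omega)
    have h2 := D_adj H x (w.adj_getVert_succ (i := w.length - (i + 1)) (by omega))
    rw [show w.length - (i + 1) + 1 = w.length - i by omega] at h2
    omega

/-- a cycle through a point has length at least 12 -/
lemma cycle_pt (H : Lim 𝓛 δ) (x : ℕ) (c : (inc (I 𝓛)).Walk (Sum.inl x) (Sum.inl x))
    (hc : c.IsCycle) : 12 ≤ c.length := by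
  classical
  by_contra hlt
  push Not at hlt
  have h3 := hc.three_le_length
  obtain ⟨i, hi, hmax⟩ := Finset.exists_max_image (Finset.range (c.length + 1))
    (fun i => D H x (c.getVert i)) ⟨0, by simp⟩
  rw [Finset.mem_range] at hi
  have hm : ∀ j, j ≤ c.length → D H x (c.getVert j) ≤ D H x (c.getVert i) := fun j hj =>
    hmax j (Finset.mem_range.2 (by omega))
  have h0 : D H x (c.getVert 0) = 0 := by rw [Walk.getVert_zero, D_self]
  have hn : D H x (c.getVert c.length) = 0 := by rw [Walk.getVert_length, D_self]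
  have h1 : D H x (c.getVert 1) = 1 := by
    have := D_adj H x (c.adj_getVert_succ (i := 0) (by omega))
    rw [h0, Nat.zero_add] at this
    omega
  have hi1 := hm 1 (by omega)
  have hi0 : i ≠ 0 := by rintro rfl; omega
  have hin : i ≠ c.length := by rintro rfl; omega
  have a1 := D_getVert H x c i (by omega)
  have a2 := D_getVert' H x c (c.length - i) (by omega)
  rw [show c.length - (c.length - i) = i by omega] at a2
  rw [D_self] at a1 a2
  have b1 := c.adj_getVert_succ (i := i - 1) (by omega)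
  rw [show i - 1 + 1 = i by omega] at b1
  have b2 := c.adj_getVert_succ (i := i) (by omega)
  have c1 := D_adj H x b1
  have c2 := D_adj H x b2
  have d1 := hm (i - 1) (by omega)
  have d2 := hm (i + 1) (by omega)
  have := D_uniq H x (by omega) b1 b2.symm (by omega) (by omega)
  exact hc.getVert_sub_one_ne_getVert_add_one (by omega) this

lemma le_girth (H : Lim 𝓛 δ) : ((12 : ℕ) : ℕ∞) ≤ (inc (I 𝓛)).egirth := by
  classical
  rw [le_egirth]
  intro a c hc
  have hcase : ∃ x, Sum.inl x ∈ c.support := by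
    rcases a with a | a
    · exact ⟨a, c.start_mem_support⟩
    · have h := c.adj_snd hc.not_nil
      obtain ⟨y, hy⟩ : ∃ y, c.snd = Sum.inl y := by
        rcases hs : c.snd with y | y
        · exact ⟨y, rfl⟩
        · rw [hs] at h
          exact absurd h inc_not_adj_rr
      exact ⟨y, hy ▸ c.getVert_mem_support 1⟩
  obtain ⟨x, hx⟩ := hcase
  have h := cycle_pt H x (c.rotate _ hx) (hc.rotate hx)
  rw [Walk.length_rotate] at h
  exact_mod_cast h

/-- geodesic walks between points -/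
lemma exists_walk (H : Lim 𝓛 δ) (x y : ℕ) :
    ∃ w : (inc (I 𝓛)).Walk (Sum.inl x) (Sum.inl y), w.length = 2 * δ x y := by
  have w1 : ∀ x y, δ x y = 1 →
      ∃ w : (inc (I 𝓛)).Walk (Sum.inl x) (Sum.inl y), w.length = 2 := by
    intro x y h
    obtain ⟨l, hl, hx, hy⟩ := H.adj x y h
    refine ⟨Walk.cons (v := Sum.inr ⟨l, hl⟩) (adj_lr (l := ⟨l, hl⟩) hx)
      (Walk.cons (adj_rl (l := ⟨l, hl⟩) hy) Walk.nil), rfl⟩
  have w2 : ∀ x y, δ x y = 2 →
      ∃ w : (inc (I 𝓛)).Walk (Sum.inl x) (Sum.inl y), w.length = 4 := by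
    intro x y h
    obtain ⟨v, h1, h2⟩ := H.real x y h
    obtain ⟨p, hp⟩ := w1 x v h1
    obtain ⟨q, hq⟩ := w1 v y (by rw [H.symm]; exact h2)
    exact ⟨p.append q, by rw [Walk.length_append, hp, hq]⟩
  have hle := H.le x y
  have hcase : δ x y = 0 ∨ δ x y = 1 ∨ δ x y = 2 ∨ δ x y = 3 := by omega
  rcases hcase with h | h | h | h
  · have := (H.zero x y).1 h
    subst this
    exact ⟨Walk.nil, by rw [h]; rfl⟩
  · obtain ⟨w, hw⟩ := w1 x y h
    exact ⟨w, by omega⟩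
  · obtain ⟨w, hw⟩ := w2 x y h
    exact ⟨w, by omega⟩
  · obtain ⟨m, hm, hym⟩ := (H.inf y).nonempty
    have h1 := near_le H x ⟨m, hm⟩
    have h2 := near_ne H x ⟨m, hm⟩ (j := y) hym (by
      intro hcon
      rw [← hcon] at h1
      omega)
    obtain ⟨p, hp⟩ := w2 x (near H x ⟨m, hm⟩) (by omega)
    have hk := near_mem H x ⟨m, hm⟩
    refine ⟨(p.concat (v := Sum.inl (near H x ⟨m, hm⟩)) (w := Sum.inr ⟨m, hm⟩)
      (adj_lr (l := ⟨m, hm⟩) hk)).concat (adj_rl (l := ⟨m, hm⟩) hym), ?_⟩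
    rw [Walk.length_concat, Walk.length_concat, hp, h]

lemma dist_pt (H : Lim 𝓛 δ) (x y : ℕ) :
    (inc (I 𝓛)).dist (Sum.inl x) (Sum.inl y) = 2 * δ x y := by
  obtain ⟨w, hw⟩ := exists_walk H x y
  apply le_antisymm
  · rw [← hw]; exact dist_le w
  · obtain ⟨p, hp⟩ := w.reachable.exists_walk_length_eq_dist
    have := D_walk H x p
    rw [D_self, D_inl, hp] at this
    omega

lemma exists_far (H : Lim 𝓛 δ) (x y : ℕ) (h : δ x y ≤ 2) : ∃ y', δ x y' = δ x y + 1 := by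
  classical
  -- a line through `y` without closer points
  obtain ⟨l, hl, hyl, hfar⟩ : ∃ l ∈ 𝓛, y ∈ l ∧ ∀ k ∈ l, δ x y ≤ δ x k := by
    obtain ⟨l, hl, l', hl', hne⟩ := (H.inf y).nontrivial
    by_contra hcon
    push Not at hcon
    obtain ⟨k, hk, h1⟩ := hcon l hl.1 hl.2
    obtain ⟨k', hk', h2⟩ := hcon l' hl'.1 hl'.2
    exact hne (H.uniq x y h l hl.1 l' hl'.1 hl.2 hl'.2 k hk k' hk' h1 h2)
  have hyn : y = near H x ⟨l, hl⟩ := by
    by_contra hne
    have h1 := near_ne H x ⟨l, hl⟩ (j := y) hyl hne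
    have h2 := hfar _ (near_mem H x ⟨l, hl⟩)
    omega
  obtain ⟨y', hy', hne⟩ : ∃ y' ∈ l, y' ≠ y := by
    have : (1 : ℕ) < l.card := by rw [H.card l hl]; norm_num
    exact Finset.exists_mem_ne this y
  refine ⟨y', ?_⟩
  have := near_ne H x ⟨l, hl⟩ (j := y') hy' (by rw [← hyn]; exact hne)
  rw [this, ← hyn]

lemma exists_three (H : Lim 𝓛 δ) : ∃ x y, δ x y = 3 := by
  have h0 : δ 0 0 = 0 := (H.zero 0 0).2 rfl
  obtain ⟨a, ha⟩ := exists_far H 0 0 (by omega)
  obtain ⟨b, hb⟩ := exists_far H 0 a (by omega)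
  obtain ⟨c, hc⟩ := exists_far H 0 b (by omega)
  exact ⟨0, c, by omega⟩

lemma ediam_eq (H : Lim 𝓛 δ) : (inc (I 𝓛)).ediam = ((6 : ℕ) : ℕ∞) := by
  apply le_antisymm
  · apply ediam_le_of_edist_le
    have hpl : ∀ x (l : 𝓛), ∃ w : (inc (I 𝓛)).Walk (Sum.inl x) (Sum.inr l), w.length ≤ 5 := by
      intro x l
      obtain ⟨w, hw⟩ := exists_walk H x (near H x l)
      refine ⟨w.concat (adj_lr (near_mem H x l)), ?_⟩
      rw [Walk.length_concat, hw]
      have := near_le H x l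
      omega
    have key : ∀ u v : ℕ ⊕ 𝓛, ∃ w : (inc (I 𝓛)).Walk u v, w.length ≤ 6 := by
      rintro (x | l) (y | m)
      · obtain ⟨w, hw⟩ := exists_walk H x y
        have := H.le x y
        exact ⟨w, by omega⟩
      · obtain ⟨w, hw⟩ := hpl x m
        exact ⟨w, by omega⟩
      · obtain ⟨w, hw⟩ := hpl y l
        exact ⟨w.reverse, by rw [Walk.length_reverse]; omega⟩
      · obtain ⟨x, hx⟩ : l.1.Nonempty := by
          rw [← Finset.card_pos, H.card l.1 l.2]; norm_num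
        obtain ⟨w, hw⟩ := hpl x m
        exact ⟨Walk.cons (adj_rl hx) w, by rw [Walk.length_cons]; omega⟩
    intro u v
    obtain ⟨w, hw⟩ := key u v
    exact (edist_le w).trans (by exact_mod_cast hw)
  · obtain ⟨x, y, hxy⟩ := exists_three H
    obtain ⟨w, hw⟩ := exists_walk H x y
    have h1 : (inc (I 𝓛)).edist (Sum.inl x) (Sum.inl y) = ((6 : ℕ) : ℕ∞) := by
      rw [← w.reachable.coe_dist_eq_edist, dist_pt H, hxy]
    rw [← h1]
    exact edist_le_ediam

lemma egirth_eq (H : Lim 𝓛 δ) : (inc (I 𝓛)).egirth = ((12 : ℕ) : ℕ∞) := by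
  apply le_antisymm
  · obtain ⟨x, y, hxy⟩ := exists_three H
    obtain ⟨l, hl, l', hl', hne⟩ := (H.inf y).nontrivial
    have key : ∀ (m : Finset ℕ) (hm : m ∈ 𝓛) (hy : y ∈ m),
        ∃ p : (inc (I 𝓛)).Walk (Sum.inl x) (Sum.inl y), p.IsPath ∧ p.length = 6 ∧
          p.penultimate = Sum.inr ⟨m, hm⟩ := by
      intro m hm hy
      have h1 := near_le H x ⟨m, hm⟩
      have h2 := near_ne H x ⟨m, hm⟩ (j := y) hy (by
        intro hcon
        rw [← hcon] at h1
        omega)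
      obtain ⟨p, hp⟩ := exists_walk H x (near H x ⟨m, hm⟩)
      have hk := near_mem H x ⟨m, hm⟩
      have hlen : ((p.concat (v := Sum.inl (near H x ⟨m, hm⟩)) (w := Sum.inr ⟨m, hm⟩)
        (adj_lr (l := ⟨m, hm⟩) hk)).concat (adj_rl (l := ⟨m, hm⟩) hy)).length = 6 := by
        rw [Walk.length_concat, Walk.length_concat, hp]
        omega
      refine ⟨(p.concat (v := Sum.inl (near H x ⟨m, hm⟩)) (w := Sum.inr ⟨m, hm⟩)
        (adj_lr (l := ⟨m, hm⟩) hk)).concat (adj_rl (l := ⟨m, hm⟩) hy), ?_, hlen, ?_⟩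
      · apply Walk.isPath_of_length_eq_dist
        rw [hlen, dist_pt H, hxy]
      · rw [Walk.penultimate_concat]
    obtain ⟨p, p1, p2, p3⟩ := key l hl.1 hl.2
    obtain ⟨q, q1, q2, q3⟩ := key l' hl'.1 hl'.2
    have hpq : p ≠ q := by
      intro h
      rw [h, q3] at p3
      have := Sum.inr_injective p3
      exact hne (congrArg Subtype.val this).symm
    obtain ⟨v, -, -, c, hc1, hc2⟩ := p1.exists_isCycle_length_le_add_of_ne q1 hpq
    refine (egirth_le_length hc1).trans ?_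
    rw [p2, q2] at hc2
    exact_mod_cast hc2
  · exact le_girth H

end

/-- A semi-finite generalized hexagon exists. -/
theorem exists_hexagon :
    ∃ (P L : Type) (I : P → L → Prop),
      (inc I).ediam = ((6 : ℕ) : ℕ∞) ∧ (inc I).egirth = ((2 * 6 : ℕ) : ℕ∞) ∧
      (∀ l : L, {p : P | I p l}.Finite ∧ Set.ncard {p : P | I p l} = 5) ∧
      (∀ p : P, {l : L | I p l}.Infinite) := by
  obtain ⟨𝓛, δ, H⟩ := exists_lim
  refine ⟨ℕ, 𝓛, I 𝓛, ediam_eq H, ?_, ?_, ?_⟩
  · rw [egirth_eq H]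
  · intro l
    have hs : {p : ℕ | I 𝓛 p l} = (l.1 : Set ℕ) := by
      ext p; simp [I]
    rw [hs]
    exact ⟨Finset.finite_toSet _, by rw [Set.ncard_coe_finset, H.card l.1 l.2]⟩
  · intro p hfin
    apply H.inf p
    refine (hfin.image Subtype.val).subset ?_
    rintro l ⟨hl, hp⟩
    exact ⟨⟨l, hl⟩, hp, rfl⟩

end Pool.Agent.SemiHex
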