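import Mathlib

set_option autoImplicit false

/-!
# Labelling lemmas for the construction of a semi-finite generalized hexagon

Lines are five-element sets of natural numbers.  A function `f` has pattern `Pat f l` on a line `l`
when it has a unique minimum `a` (at most 2) on `l` and the value `a + 1` at the other points.
-/

namespace Pool.Agent.SemiHex

/-- `f` takes a value `a ≤ 2` at one point of `l` and `a + 1` at all other points. -/
def Pat (f : ℕ → ℕ) (l : Finset ℕ) : Prop :=
  ∃ k ∈ l, f k ≤ 2 ∧ ∀ j ∈ l, j ≠ k → f j = f k + 1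

/-- The possible pairs of distances to the two points of a pair at distance two without a common
neighbour. -/
def Compat (a b : ℕ) : Prop :=
  (a = 0 ∧ b = 2) ∨ (a = 2 ∧ b = 0) ∨ (a = 1 ∧ b = 3) ∨ (a = 3 ∧ b = 1) ∨
  (a = 2 ∧ b = 2) ∨ (a = 2 ∧ b = 3) ∨ (a = 3 ∧ b = 2) ∨ (a = 3 ∧ b = 3)

lemma Compat.symm {a b : ℕ} (h : Compat a b) : Compat b a := by
  unfold Compat at *; omega

/-- Pointwise condition on labels. -/
def PtOK (a b h k1 k2 : ℕ) : Prop :=
  (a ≤ 2 ∨ b ≤ 2 → h = min a b + 1) ∧ (a = 3 → b = 3 → h = 2 ∨ h = 3) ∧ k1 < 3 ∧ k2 < 3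

lemma PtOK.symm {a b h k1 k2 : ℕ} (H : PtOK a b h k1 k2) : PtOK b a h k2 k1 := by
  unfold PtOK at *
  obtain ⟨h1, h2, h3, h4⟩ := H
  refine ⟨fun h => ?_, fun h h' => h2 h' h, h4, h3⟩
  rw [min_comm]
  exact h1 h.symm

/-- Condition on labels along a line. -/
structure LineOK (f g h κ₁ κ₂ : ℕ → ℕ) (l : Finset ℕ) : Prop where
  pat : Pat h l
  c1 : ∀ x ∈ l, ∀ y ∈ l, x ≠ y → f x = 3 → h x = 3 → f y = 3 → h y = 3 → κ₁ x ≠ κ₁ y
  c2 : ∀ x ∈ l, ∀ y ∈ l, x ≠ y → g x = 3 → h x = 3 → g y = 3 → h y = 3 → κ₂ x ≠ κ₂ y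

lemma LineOK.symm {f g h κ₁ κ₂ : ℕ → ℕ} {l : Finset ℕ} (H : LineOK f g h κ₁ κ₂ l) :
    LineOK g f h κ₂ κ₁ l := ⟨H.pat, H.c2, H.c1⟩

lemma Pat.congr {f f' : ℕ → ℕ} {l : Finset ℕ} (H : Pat f l) (hf : ∀ x ∈ l, f' x = f x) :
    Pat f' l := by
  obtain ⟨k, hk, h1, h2⟩ := H
  refine ⟨k, hk, by rw [hf k hk]; exact h1, fun j hj hjk => ?_⟩
  rw [hf k hk, hf j hj]; exact h2 j hj hjk

lemma LineOK.congr {f g h h' κ₁ κ₂ κ₁' κ₂' : ℕ → ℕ} {l : Finset ℕ}
    (H : LineOK f g h κ₁ κ₂ l)
    (he : ∀ x ∈ l, h' x = h x ∧ κ₁' x = κ₁ x ∧ κ₂' x = κ₂ x) :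
    LineOK f g h' κ₁' κ₂' l := by
  refine ⟨H.pat.congr fun x hx => (he x hx).1, ?_, ?_⟩
  · intro x hx y hy hxy h1 h2 h3 h4
    rw [(he x hx).2.1, (he y hy).2.1]
    rw [(he x hx).1] at h2
    rw [(he y hy).1] at h4
    exact H.c1 x hx y hy hxy h1 h2 h3 h4
  · intro x hx y hy hxy h1 h2 h3 h4
    rw [(he x hx).2.2, (he y hy).2.2]
    rw [(he x hx).1] at h2
    rw [(he y hy).1] at h4
    exact H.c2 x hx y hy hxy h1 h2 h3 h4

/-- The labelling property of a set of lines. -/
def LP (L : Set (Finset ℕ)) : Prop :=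
  ∀ f g : ℕ → ℕ, (∀ x, Compat (f x) (g x)) → (∀ l ∈ L, Pat f l) → (∀ l ∈ L, Pat g l) →
    ∃ h κ₁ κ₂ : ℕ → ℕ, (∀ x, PtOK (f x) (g x) (h x) (κ₁ x) (κ₂ x)) ∧
      ∀ l ∈ L, LineOK f g h κ₁ κ₂ l

/-- Extension of a partial injective colouring. -/
lemma ext_inj (m : ℕ) (C U : Finset ℕ) (κ : ℕ → ℕ) (hC : C.card ≤ m) (hlt : ∀ x, κ x < m)
    (hinj : ∀ x ∈ C, x ∈ U → ∀ y ∈ C, y ∈ U → x ≠ y → κ x ≠ κ y) :
    ∃ κ' : ℕ → ℕ, (∀ x, x ∉ C ∨ x ∈ U → κ' x = κ x) ∧ (∀ x, κ' x < m) ∧
      ∀ x ∈ C, ∀ y ∈ C, x ≠ y → κ' x ≠ κ' y := by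
  classical
  set A := C \ U with hA
  set B := (C ∩ U).image κ with hB
  set R := Finset.range m \ B with hR
  have hBsub : B ⊆ Finset.range m := by
    intro b hb
    rw [hB, Finset.mem_image] at hb
    obtain ⟨x, -, rfl⟩ := hb
    exact Finset.mem_range.2 (hlt x)
  have hRc : R.card = m - B.card := by
    rw [hR, Finset.card_sdiff_of_subset hBsub, Finset.card_range]
  have hBc : B.card ≤ (C ∩ U).card := Finset.card_image_le
  have hAc : A.card + (C ∩ U).card = C.card := by
    rw [hA]; exact Finset.card_sdiff_add_card_inter C U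
  have hle : Fintype.card A ≤ Fintype.card R := by
    rw [Fintype.card_coe, Fintype.card_coe]; omega
  have hRm : ∀ r ∈ R, r < m ∧ r ∉ B := by
    intro r hr
    rw [hR, Finset.mem_sdiff, Finset.mem_range] at hr
    exact hr
  obtain ⟨φ⟩ := Function.Embedding.nonempty_of_card_le hle
  refine ⟨fun x => if hx : x ∈ A then (φ ⟨x, hx⟩).1 else κ x, ?_, ?_, ?_⟩
  · intro x hx
    have : x ∉ A := by
      rw [hA, Finset.mem_sdiff]
      tauto
    simp [this]
  · intro x
    by_cases hx : x ∈ A
    · simp only [hx, dite_true]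
      exact (hRm _ (φ ⟨x, hx⟩).2).1
    · simp only [hx, dite_false]
      exact hlt x
  · intro x hx y hy hxy
    by_cases hxA : x ∈ A <;> by_cases hyA : y ∈ A
    · simp only [hxA, hyA, dite_true]
      intro h
      have := φ.injective (Subtype.ext h)
      exact hxy (congrArg Subtype.val this)
    · simp only [hxA, hyA, dite_true, dite_false]
      intro h
      have h1 := hRm _ (φ ⟨x, hxA⟩).2
      rw [h] at h1
      have hyU : y ∈ U := by
        by_contra hyU
        exact hyA (by rw [hA, Finset.mem_sdiff]; exact ⟨hy, hyU⟩)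
      exact h1.2 (by
        rw [hB, Finset.mem_image]
        exact ⟨y, Finset.mem_inter.2 ⟨hy, hyU⟩, rfl⟩)
    · simp only [hxA, hyA, dite_true, dite_false]
      intro h
      have h1 := hRm _ (φ ⟨y, hyA⟩).2
      rw [← h] at h1
      have hxU : x ∈ U := by
        by_contra hxU
        exact hxA (by rw [hA, Finset.mem_sdiff]; exact ⟨hx, hxU⟩)
      exact h1.2 (by
        rw [hB, Finset.mem_image]
        exact ⟨x, Finset.mem_inter.2 ⟨hx, hxU⟩, rfl⟩)
    · simp only [hxA, hyA, dite_false]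
      have hxU : x ∈ U := by
        by_contra hxU
        exact hxA (by rw [hA, Finset.mem_sdiff]; exact ⟨hx, hxU⟩)
      have hyU : y ∈ U := by
        by_contra hyU
        exact hyA (by rw [hA, Finset.mem_sdiff]; exact ⟨hy, hyU⟩)
      exact hinj x hx hxU y hy hyU hxy

/-- At most three points of a line need a colour. -/
lemma coloured_card {f g h κ₁ κ₂ : ℕ → ℕ} (hc : ∀ x, Compat (f x) (g x))
    (hp : ∀ x, PtOK (f x) (g x) (h x) (κ₁ x) (κ₂ x)) {l : Finset ℕ} (hl : l.card = 5)
    (hf : Pat f l) (hh : Pat h l) :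
    (l.filter (fun x => f x = 3 ∧ h x = 3)).card ≤ 3 := by
  classical
  obtain ⟨x0, hx0, a1, a2⟩ := hf
  obtain ⟨x1, hx1, b1, b2⟩ := hh
  by_cases hne : x0 = x1
  · subst hne
    have : l.filter (fun x => f x = 3 ∧ h x = 3) = ∅ := by
      rw [Finset.filter_eq_empty_iff]
      intro x hx hx3
      have hxne : x ≠ x0 := by
        rintro rfl; omega
      have e1 := a2 x hx hxne
      have e2 := b2 x hx hxne
      have c := hc x0
      have p := (hp x0).1
      unfold Compat at c
      omega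
    rw [this]; simp
  · have hsub : l.filter (fun x => f x = 3 ∧ h x = 3) ⊆ (l.erase x0).erase x1 := by
      intro x hx
      rw [Finset.mem_filter] at hx
      rw [Finset.mem_erase, Finset.mem_erase]
      refine ⟨?_, ?_, hx.1⟩
      · rintro rfl; omega
      · rintro rfl; omega
    have h1 := Finset.card_le_card hsub
    rw [Finset.card_erase_of_mem (Finset.mem_erase.2 ⟨fun h => hne h.symm, hx1⟩),
      Finset.card_erase_of_mem hx0, hl] at h1
    exact h1

/-- Completion of labels along a line in which at most two points are labelled. -/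
lemma complete {f g h κ₁ κ₂ : ℕ → ℕ} (hc : ∀ x, Compat (f x) (g x))
    (hp : ∀ x, PtOK (f x) (g x) (h x) (κ₁ x) (κ₂ x)) {l U : Finset ℕ} (hl : l.card = 5)
    (hf : Pat f l) (hg : Pat g l) (hU2 : U.card ≤ 2)
    (i1 : ∀ u ∈ U, ∀ v ∈ U, u ≠ v → f u = 3 → h u = 3 → f v = 3 → h v = 3 → κ₁ u ≠ κ₁ v)
    (i2 : ∀ u ∈ U, ∀ v ∈ U, u ≠ v → g u = 3 → h u = 3 → g v = 3 → h v = 3 → κ₂ u ≠ κ₂ v)
    (iO : ∀ u ∈ U, ∀ v ∈ U, u ≠ v → f u = 3 → g u = 3 → h u = 2 → f v = 3 → g v = 3 →
      h v = 2 → False) :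
    ∃ h' κ₁' κ₂' : ℕ → ℕ, (∀ x, x ∉ l ∨ x ∈ U → h' x = h x ∧ κ₁' x = κ₁ x ∧ κ₂' x = κ₂ x) ∧
      (∀ x, PtOK (f x) (g x) (h' x) (κ₁' x) (κ₂' x)) ∧ LineOK f g h' κ₁' κ₂' l := by
  classical
  -- first choose `h'`
  have step1 : ∃ h' : ℕ → ℕ, (∀ x, x ∉ l ∨ x ∈ U → h' x = h x) ∧
      (∀ x, PtOK (f x) (g x) (h' x) (κ₁ x) (κ₂ x)) ∧ Pat h' l := by
    obtain ⟨x0, hx0, a1, a2⟩ := hf
    obtain ⟨x1, hx1, b1, b2⟩ := hg
    by_cases hcase : f x0 = 2 ∧ g x1 = 2
    · -- free points exist
      obtain ⟨p, hpl, hp0, hp1, hpU⟩ : ∃ p ∈ l, p ≠ x0 ∧ p ≠ x1 ∧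
          ((p ∈ U ∧ h p = 2) ∨ (p ∉ U ∧ ∀ u ∈ U, u ∈ l → f u = 3 → g u = 3 → h u ≠ 2)) := by
        by_cases hex : ∃ u ∈ U, u ∈ l ∧ f u = 3 ∧ g u = 3 ∧ h u = 2
        · obtain ⟨u, hu, hul, hu1, hu2, hu3⟩ := hex
          exact ⟨u, hul, by rintro rfl; omega, by rintro rfl; omega, Or.inl ⟨hu, hu3⟩⟩
        · push Not at hex
          have hcard : (insert x0 (insert x1 U)).card < l.card := by
            have e1 := Finset.card_insert_le x0 (insert x1 U)
            have e2 := Finset.card_insert_le x1 U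
            omega
          obtain ⟨p, hpl, hpn⟩ := Finset.exists_mem_notMem_of_card_lt_card hcard
          simp only [Finset.mem_insert, not_or] at hpn
          exact ⟨p, hpl, hpn.1, hpn.2.1, Or.inr ⟨hpn.2.2, fun u hu hul h1 h2 => hex u hu hul h1 h2⟩⟩
      refine ⟨fun x => if x ∈ l ∧ x ∉ U ∧ f x = 3 ∧ g x = 3 then (if x = p then 2 else 3) else h x,
        ?_, ?_, ?_⟩
      · intro x hx
        have : ¬ (x ∈ l ∧ x ∉ U ∧ f x = 3 ∧ g x = 3) := by tauto
        simp [this]
      · intro x
        by_cases hx : x ∈ l ∧ x ∉ U ∧ f x = 3 ∧ g x = 3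
        · simp only [hx, not_false_eq_true, and_self, if_true]
          have := hp x
          unfold PtOK at *
          by_cases hxp : x = p <;> simp [hxp] at * <;> omega
        · simp only [hx, if_false]
          exact hp x
      · have fp : f p = 3 := by have := a2 p hpl hp0; omega
        have gp : g p = 3 := by have := b2 p hpl hp1; omega
        have hval : (if p ∈ l ∧ p ∉ U ∧ f p = 3 ∧ g p = 3 then (if p = p then 2 else 3)
            else h p) = 2 := by
          rcases hpU with ⟨h1, h2⟩ | ⟨h1, -⟩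
          · simp [h1, h2]
          · simp [h1, hpl, fp, gp]
        refine ⟨p, hpl, ?_, ?_⟩
        · show (if p ∈ l ∧ p ∉ U ∧ f p = 3 ∧ g p = 3 then (if p = p then 2 else 3) else h p) ≤ 2
          rw [hval]
        · intro j hj hjp
          show (if j ∈ l ∧ j ∉ U ∧ f j = 3 ∧ g j = 3 then (if j = p then 2 else 3) else h j)
            = (if p ∈ l ∧ p ∉ U ∧ f p = 3 ∧ g p = 3 then (if p = p then 2 else 3) else h p) + 1
          rw [hval]
          by_cases hjf : j ∈ l ∧ j ∉ U ∧ f j = 3 ∧ g j = 3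
          · simp [hjf, hjp]
          · rw [if_neg hjf]
            have hjc := hc j
            have hjp' := hp j
            have hj0 : j = x0 ∨ f j = 3 := by
              by_cases h : j = x0
              · exact Or.inl h
              · right; have := a2 j hj h; omega
            have hj1 : j = x1 ∨ g j = 3 := by
              by_cases h : j = x1
              · exact Or.inl h
              · right; have := b2 j hj h; omega
            by_cases hfree : f j = 3 ∧ g j = 3
            · have hjU : j ∈ U := by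
                by_contra hjU
                exact hjf ⟨hj, hjU, hfree.1, hfree.2⟩
              have h23 := hjp'.2.1 hfree.1 hfree.2
              rcases h23 with h2 | h3
              · exfalso
                rcases hpU with ⟨q1, q2⟩ | ⟨-, q2⟩
                · exact iO j hjU p q1 hjp hfree.1 hfree.2 h2 fp gp q2
                · exact q2 j hjU hj hfree.1 hfree.2 h2
              · omega
            · have hf2 : 2 ≤ f j := by
                rcases hj0 with rfl | h
                · omega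
                · omega
              have hg2 : 2 ≤ g j := by
                rcases hj1 with rfl | h
                · omega
                · omega
              have := hjp'.1
              unfold Compat at hjc
              omega
    · -- everything is determined
      refine ⟨h, fun x _ => rfl, hp, ?_⟩
      have hall : ∀ x ∈ l, h x = min (f x) (g x) + 1 ∧ Compat (f x) (g x) := by
        intro x hx
        refine ⟨(hp x).1 ?_, hc x⟩
        by_contra hcon
        push Not at hcon
        have c0 := hc x0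
        have c1 := hc x1
        have cx := hc x
        have hx00 : x ≠ x0 := by rintro rfl; omega
        have hx11 : x ≠ x1 := by rintro rfl; omega
        have e0 := a2 x hx hx00
        have e1 := b2 x hx hx11
        unfold Compat at c0 c1 cx
        omega
      -- case analysis on the position of the minima
      by_cases h01 : x0 = x1
      · subst h01
        refine ⟨x0, hx0, ?_, ?_⟩
        · have := hall x0 hx0
          unfold Compat at this
          omega
        · intro j hj hjne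
          have q0 := hall x0 hx0
          have qj := hall j hj
          have e0 := a2 j hj hjne
          have e1 := b2 j hj hjne
          unfold Compat at q0 qj
          omega
      · have q0 := hall x0 hx0
        have q1 := hall x1 hx1
        have f1 := a2 x1 hx1 (fun h => h01 h.symm)
        have g0 := b2 x0 hx0 h01
        rcases Nat.lt_or_ge (f x0) 2 with hlt | hge
        · refine ⟨x0, hx0, ?_, ?_⟩
          · unfold Compat at q0; omega
          · intro j hj hjne
            have qj := hall j hj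
            have e0 := a2 j hj hjne
            by_cases hj1 : j = x1
            · subst hj1
              unfold Compat at q0 qj; omega
            · have e1 := b2 j hj hj1
              unfold Compat at q0 q1 qj; omega
        · refine ⟨x1, hx1, ?_, ?_⟩
          · unfold Compat at q0 q1; omega
          · intro j hj hjne
            have qj := hall j hj
            have e1 := b2 j hj hjne
            by_cases hj0 : j = x0
            · subst hj0
              unfold Compat at q1 qj; omega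
            · have e0 := a2 j hj hj0
              unfold Compat at q0 q1 qj; omega
  obtain ⟨h', e1, p1, pat⟩ := step1
  have cc1 := coloured_card hc p1 hl hf pat
  have cc2 := coloured_card (fun x => (hc x).symm) (fun x => (p1 x).symm) hl hg pat
  obtain ⟨κ₁', k1, k1', k1''⟩ := ext_inj 3 (l.filter (fun x => f x = 3 ∧ h' x = 3)) U κ₁ cc1
    (fun x => (hp x).2.2.1) (by
      intro x hx hxU y hy hyU hxy
      rw [Finset.mem_filter] at hx hy
      exact i1 x hxU y hyU hxy hx.2.1 (by rw [← e1 x (Or.inr hxU)]; exact hx.2.2) hy.2.1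
        (by rw [← e1 y (Or.inr hyU)]; exact hy.2.2))
  obtain ⟨κ₂', k2, k2', k2''⟩ := ext_inj 3 (l.filter (fun x => g x = 3 ∧ h' x = 3)) U κ₂ cc2
    (fun x => (hp x).2.2.2) (by
      intro x hx hxU y hy hyU hxy
      rw [Finset.mem_filter] at hx hy
      exact i2 x hxU y hyU hxy hx.2.1 (by rw [← e1 x (Or.inr hxU)]; exact hx.2.2) hy.2.1
        (by rw [← e1 y (Or.inr hyU)]; exact hy.2.2))
  refine ⟨h', κ₁', κ₂', ?_, ?_, ⟨pat, ?_, ?_⟩⟩
  · intro x hx
    refine ⟨e1 x hx, k1 x ?_, k2 x ?_⟩
    · rcases hx with hx | hx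
      · left; intro h; exact hx (Finset.mem_filter.1 h).1
      · right; exact hx
    · rcases hx with hx | hx
      · left; intro h; exact hx (Finset.mem_filter.1 h).1
      · right; exact hx
  · intro x
    exact ⟨(p1 x).1, (p1 x).2.1, k1' x, k2' x⟩
  · intro x hx y hy hxy h1 h2 h3 h4
    exact k1'' x (Finset.mem_filter.2 ⟨hx, h1, h2⟩) y (Finset.mem_filter.2 ⟨hy, h3, h4⟩) hxy
  · intro x hx y hy hxy h1 h2 h3 h4
    exact k2'' x (Finset.mem_filter.2 ⟨hx, h1, h2⟩) y (Finset.mem_filter.2 ⟨hy, h3, h4⟩) hxy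

end Pool.Agent.SemiHex
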