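import Pool.Agent.SemiHex.StepB2

set_option autoImplicit false

/-!
# The limit of the construction
-/

namespace Pool.Agent.SemiHex

/-- Combined step. -/
theorem step {S : St} (G : Good S) (x y : ℕ) :
    ∃ S' : St, Good S' ∧ Ext S S' ∧ (x < S.N → S.N < S'.N ∧ ∃ l ∈ S'.L, l ∉ S.L ∧ x ∈ l) ∧
      (x < S.N → y < S.N → S.δ x y = 2 → ∃ v, v < S'.N ∧ S'.δ x v = 1 ∧ S'.δ y v = 1) := by
  by_cases hx : x < S.N
  · obtain ⟨S1, G1, E1, hN1, h2, hun⟩ := stepC G hx
    obtain ⟨S2, G2, E2, ⟨l, hl, hl1, hxl⟩, -⟩ := stepB G1 (hx.trans hN1) hN1 h2 hun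
    have E02 := E1.trans E2
    have hlS : l ∉ S.L := fun h => hl1 (E1.L h)
    have hNN : S.N < S2.N := hN1.trans_le E2.N
    by_cases hcase : y < S.N ∧ S.δ x y = 2 ∧ ∀ v, v < S2.N → S2.δ x v = 1 → S2.δ y v = 1 → False
    · obtain ⟨hy, hxy, hun2⟩ := hcase
      have hx2 := hx.trans_le E02.N
      have hy2 := hy.trans_le E02.N
      obtain ⟨S3, G3, E3, -, v, hv, hv1, hv2⟩ := stepB G2 hx2 hy2
        (by rw [E02.δ x y hx hy]; exact hxy) hun2
      refine ⟨S3, G3, E02.trans E3, fun _ => ⟨hNN.trans_le E3.N, l, E3.L hl, hlS, hxl⟩, ?_⟩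
      intro _ _ _
      exact ⟨v, hv, hv1, hv2⟩
    · refine ⟨S2, G2, E02, fun _ => ⟨hNN, l, hl, hlS, hxl⟩, ?_⟩
      intro _ hy hxy
      by_contra hcon
      push Not at hcon
      exact hcase ⟨hy, hxy, fun v hv h1 h2 => hcon v hv h1 h2⟩
  · exact ⟨S, G, Ext.refl S, fun h => absurd h hx, fun h => absurd h hx⟩

/-- One point, no lines. -/
def init : St := ⟨1, ∅, fun _ _ => 0⟩

lemma good_init : Good init where
  lt := fun l hl => absurd hl (Set.notMem_empty l)
  card := fun l hl => absurd hl (Set.notMem_empty l)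
  symm := fun _ _ _ _ => rfl
  zero := by
    intro x y hx hy
    have hx : x < 1 := hx
    have hy : y < 1 := hy
    constructor
    · intro _; omega
    · intro _; rfl
  le := fun _ _ _ _ => Nat.zero_le 3
  pat := fun _ _ l hl => absurd hl (Set.notMem_empty l)
  adj := by
    intro x y _ _ h
    exact absurd h (by show ¬ (0 = 1); norm_num)
  uniq := fun _ _ _ _ _ l hl => absurd hl (Set.notMem_empty l)
  lp := by
    intro f g _ _ _
    refine ⟨fun x => if f x ≤ 2 ∨ g x ≤ 2 then min (f x) (g x) + 1 else 3, fun _ => 0, fun _ => 0,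
      ?_, fun l hl => absurd hl (Set.notMem_empty l)⟩
    intro x
    refine ⟨fun h => by simp only [if_pos h], fun h1 h2 => ?_, by norm_num, by norm_num⟩
    right
    show (if f x ≤ 2 ∨ g x ≤ 2 then min (f x) (g x) + 1 else 3) = 3
    rw [if_neg (by omega)]
  chi := ⟨fun _ => 0, fun _ => by norm_num, fun l hl => absurd hl (Set.notMem_empty l)⟩

/-- The sequence of states. -/
noncomputable def seq : ℕ → {S : St // Good S}
  | 0 => ⟨init, good_init⟩
  | k + 1 => ⟨Classical.choose (step (seq k).2 k.unpair.1.unpair.1 k.unpair.1.unpair.2),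
      (Classical.choose_spec (step (seq k).2 k.unpair.1.unpair.1 k.unpair.1.unpair.2)).1⟩

lemma seq_succ (k : ℕ) :
    Ext (seq k).1 (seq (k + 1)).1 ∧
    (k.unpair.1.unpair.1 < (seq k).1.N → (seq k).1.N < (seq (k + 1)).1.N ∧
      ∃ l ∈ (seq (k + 1)).1.L, l ∉ (seq k).1.L ∧ k.unpair.1.unpair.1 ∈ l) ∧
    (k.unpair.1.unpair.1 < (seq k).1.N → k.unpair.1.unpair.2 < (seq k).1.N →
      (seq k).1.δ k.unpair.1.unpair.1 k.unpair.1.unpair.2 = 2 →
      ∃ v, v < (seq (k + 1)).1.N ∧ (seq (k + 1)).1.δ k.unpair.1.unpair.1 v = 1 ∧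
        (seq (k + 1)).1.δ k.unpair.1.unpair.2 v = 1) :=
  (Classical.choose_spec (step (seq k).2 k.unpair.1.unpair.1 k.unpair.1.unpair.2)).2

lemma seq_mono {i j : ℕ} (hij : i ≤ j) : Ext (seq i).1 (seq j).1 := by
  induction j, hij using Nat.le_induction with
  | base => exact Ext.refl _
  | succ j _ ih => exact ih.trans (seq_succ j).1

/-- For given `x`, `y` and `m` there is a stage after `m` at which the pair `(x, y)` is handled. -/
lemma exists_stage (x y m : ℕ) : ∃ k, m ≤ k ∧ k.unpair.1.unpair.1 = x ∧ k.unpair.1.unpair.2 = y :=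
  ⟨Nat.pair (Nat.pair x y) m, Nat.right_le_pair _ _, by simp, by simp⟩

lemma seq_unbounded (n : ℕ) : ∃ k, n < (seq k).1.N := by
  induction n with
  | zero => exact ⟨0, by show 0 < 1; norm_num⟩
  | succ n ih =>
    obtain ⟨k, hk⟩ := ih
    obtain ⟨j, hj, h1, -⟩ := exists_stage 0 0 k
    have h2 := (seq_mono hj).N
    have h3 := ((seq_succ j).2.1 (by rw [h1]; omega)).1
    exact ⟨j + 1, by omega⟩

/-- The properties of the limit. -/
structure Lim (𝓛 : Set (Finset ℕ)) (δ : ℕ → ℕ → ℕ) : Prop where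
  card : ∀ l ∈ 𝓛, l.card = 5
  symm : ∀ x y, δ x y = δ y x
  zero : ∀ x y, δ x y = 0 ↔ x = y
  le : ∀ x y, δ x y ≤ 3
  pat : ∀ x, ∀ l ∈ 𝓛, Pat (δ x) l
  adj : ∀ x y, δ x y = 1 → ∃ l ∈ 𝓛, x ∈ l ∧ y ∈ l
  uniq : ∀ x v, δ x v ≤ 2 → ∀ l ∈ 𝓛, ∀ l' ∈ 𝓛, v ∈ l → v ∈ l' →
    ∀ k ∈ l, ∀ k' ∈ l', δ x k < δ x v → δ x k' < δ x v → l = l'
  real : ∀ x y, δ x y = 2 → ∃ v, δ x v = 1 ∧ δ y v = 1
  inf : ∀ x, {l | l ∈ 𝓛 ∧ x ∈ l}.Infinite

theorem exists_lim : ∃ (𝓛 : Set (Finset ℕ)) (δ : ℕ → ℕ → ℕ), Lim 𝓛 δ := by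
  classical
  choose K hK using seq_unbounded
  have hKm : ∀ x k, K x ≤ k → x < (seq k).1.N := fun x k h => (hK x).trans_le (seq_mono h).N
  set δ : ℕ → ℕ → ℕ := fun x y => (seq (max (K x) (K y))).1.δ x y with hδdef
  have hδ : ∀ k x y, x < (seq k).1.N → y < (seq k).1.N → δ x y = (seq k).1.δ x y := by
    intro k x y hx hy
    have h1 := (seq_mono (le_max_left (max (K x) (K y)) k)).δ x y
      (hKm x _ (le_max_left _ _)) (hKm y _ (le_max_right _ _))
    have h2 := (seq_mono (le_max_right (max (K x) (K y)) k)).δ x y hx hy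
    simp only [hδdef]
    rw [← h1, ← h2]
  have hL : ∀ l ∈ (⋃ k, (seq k).1.L), ∃ k, l ∈ (seq k).1.L := fun l hl => Set.mem_iUnion.1 hl
  refine ⟨⋃ k, (seq k).1.L, δ, ⟨?_, ?_, ?_, ?_, ?_, ?_, ?_, ?_, ?_⟩⟩
  · intro l hl
    obtain ⟨k, hk⟩ := hL l hl
    exact (seq k).2.card l hk
  · intro x y
    have hx := hKm x (max (K x) (K y)) (le_max_left _ _)
    have hy := hKm y (max (K x) (K y)) (le_max_right _ _)
    rw [hδ _ x y hx hy, hδ _ y x hy hx]
    exact (seq _).2.symm x y hx hy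
  · intro x y
    have hx := hKm x (max (K x) (K y)) (le_max_left _ _)
    have hy := hKm y (max (K x) (K y)) (le_max_right _ _)
    rw [hδ _ x y hx hy]
    exact (seq _).2.zero x y hx hy
  · intro x y
    have hx := hKm x (max (K x) (K y)) (le_max_left _ _)
    have hy := hKm y (max (K x) (K y)) (le_max_right _ _)
    rw [hδ _ x y hx hy]
    exact (seq _).2.le x y hx hy
  · intro x l hl
    obtain ⟨k, hk⟩ := hL l hl
    have hk' := (seq_mono (le_max_right (K x) k)).L hk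
    have hx := hKm x (max (K x) k) (le_max_left _ _)
    exact ((seq _).2.pat x hx l hk').congr fun y hy => hδ _ x y hx ((seq _).2.lt l hk' y hy)
  · intro x y h1
    have hx := hKm x (max (K x) (K y)) (le_max_left _ _)
    have hy := hKm y (max (K x) (K y)) (le_max_right _ _)
    rw [hδ _ x y hx hy] at h1
    obtain ⟨l, hl, h2⟩ := (seq _).2.adj x y hx hy h1
    exact ⟨l, Set.mem_iUnion.2 ⟨_, hl⟩, h2⟩
  · intro x v h2 l hl l' hl' hv hv' k hk k' hk' h3 h4
    obtain ⟨i, hi⟩ := hL l hl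
    obtain ⟨j, hj⟩ := hL l' hl'
    set m := max (K x) (max i j) with hm
    have hx := hKm x m (le_max_left _ _)
    have hi' : l ∈ (seq m).1.L := (seq_mono ((le_max_left i j).trans (le_max_right _ _))).L hi
    have hj' : l' ∈ (seq m).1.L := (seq_mono ((le_max_right i j).trans (le_max_right _ _))).L hj
    have hvN := (seq m).2.lt l hi' v hv
    have hkN := (seq m).2.lt l hi' k hk
    have hkN' := (seq m).2.lt l' hj' k' hk'
    rw [hδ m x v hx hvN] at h2 h3 h4
    rw [hδ m x k hx hkN] at h3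
    rw [hδ m x k' hx hkN'] at h4
    exact (seq m).2.uniq x v hx hvN h2 l hi' l' hj' hv hv' k hk k' hk' h3 h4
  · intro x y h2
    obtain ⟨k, hk, hkx, hky⟩ := exists_stage x y (max (K x) (K y))
    have hx := hKm x k ((le_max_left _ _).trans hk)
    have hy := hKm y k ((le_max_right _ _).trans hk)
    have hs := (seq_succ k).2.2
    rw [hkx, hky] at hs
    rw [hδ k x y hx hy] at h2
    obtain ⟨v, hv, hv1, hv2⟩ := hs hx hy h2
    have hN := (seq_succ k).1.N
    refine ⟨v, ?_, ?_⟩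
    · rw [hδ (k + 1) x v (hx.trans_le hN) hv]; exact hv1
    · rw [hδ (k + 1) y v (hy.trans_le hN) hv]; exact hv2
  · intro x
    -- new lines at infinitely many stages
    have hst : ∀ m, ∃ k, m ≤ k ∧ ∃ l ∈ (seq (k + 1)).1.L, l ∉ (seq k).1.L ∧ x ∈ l := by
      intro m
      obtain ⟨k, hk, hkx, -⟩ := exists_stage x 0 (max (K x) m)
      have hs := (seq_succ k).2.1
      rw [hkx] at hs
      exact ⟨k, (le_max_right _ _).trans hk, (hs (hKm x k ((le_max_left _ _).trans hk))).2⟩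
    intro hfin
    -- a finite set of lines is contained in one stage
    have hbd : ∃ m, ∀ l ∈ {l | l ∈ (⋃ k, (seq k).1.L) ∧ x ∈ l}, l ∈ (seq m).1.L := by
      refine Set.Finite.induction_on_subset _ hfin ⟨0, by simp⟩ ?_
      intro a s ha _ _ ih
      obtain ⟨m, hm⟩ := ih
      obtain ⟨k, hk⟩ := hL a ha.1
      refine ⟨max m k, ?_⟩
      intro l hl
      rcases Set.mem_insert_iff.1 hl with rfl | hl
      · exact (seq_mono (le_max_right m k)).L hk
      · exact (seq_mono (le_max_left m k)).L (hm l hl)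
    obtain ⟨m, hm⟩ := hbd
    obtain ⟨k, hk, l, hl, hln, hxl⟩ := hst m
    exact hln ((seq_mono hk).L (hm l ⟨Set.mem_iUnion.2 ⟨_, hl⟩, hxl⟩))

end Pool.Agent.SemiHex
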