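import Pool.Agent.SemiHex.Step

set_option autoImplicit false

/-!
# Finite states of the construction and the two extension steps
-/

namespace Pool.Agent.SemiHex

/-- A finite stage: points `0, …, N - 1`, a set of lines and a distance function. -/
structure St where
  N : ℕ
  L : Set (Finset ℕ)
  δ : ℕ → ℕ → ℕ

/-- The properties which are preserved by the construction. -/
structure Good (S : St) : Prop where
  lt : ∀ l ∈ S.L, ∀ x ∈ l, x < S.N
  card : ∀ l ∈ S.L, l.card = 5
  symm : ∀ x y, x < S.N → y < S.N → S.δ x y = S.δ y x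
  zero : ∀ x y, x < S.N → y < S.N → (S.δ x y = 0 ↔ x = y)
  le : ∀ x y, x < S.N → y < S.N → S.δ x y ≤ 3
  pat : ∀ x, x < S.N → ∀ l ∈ S.L, Pat (S.δ x) l
  adj : ∀ x y, x < S.N → y < S.N → S.δ x y = 1 → ∃ l ∈ S.L, x ∈ l ∧ y ∈ l
  uniq : ∀ x v, x < S.N → v < S.N → S.δ x v ≤ 2 → ∀ l ∈ S.L, ∀ l' ∈ S.L, v ∈ l → v ∈ l' →
    ∀ k ∈ l, ∀ k' ∈ l', S.δ x k < S.δ x v → S.δ x k' < S.δ x v → l = l'
  lp : LP S.L
  chi : ∃ χ : ℕ → ℕ, (∀ x, χ x < 5) ∧ ∀ l ∈ S.L, ∀ x ∈ l, ∀ y ∈ l, x ≠ y → χ x ≠ χ y

/-- `S'` extends `S`. -/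
structure Ext (S S' : St) : Prop where
  N : S.N ≤ S'.N
  L : S.L ⊆ S'.L
  δ : ∀ x y, x < S.N → y < S.N → S'.δ x y = S.δ x y

lemma Ext.refl (S : St) : Ext S S := ⟨le_rfl, subset_rfl, fun _ _ _ _ => rfl⟩

lemma Ext.trans {S S' S'' : St} (h : Ext S S') (h' : Ext S' S'') : Ext S S'' :=
  ⟨h.N.trans h'.N, h.L.trans h'.L, fun x y hx hy => by
    rw [h'.δ x y (hx.trans_le h.N) (hy.trans_le h.N), h.δ x y hx hy]⟩

/-- Two points on a line are at distance one. -/
lemma Good.one {S : St} (G : Good S) {l : Finset ℕ} (hl : l ∈ S.L) {x y : ℕ} (hx : x ∈ l)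
    (hy : y ∈ l) (hne : x ≠ y) : S.δ x y = 1 := by
  have hxN := G.lt l hl x hx
  obtain ⟨k, hk, h1, h2⟩ := G.pat x hxN l hl
  have h0 : S.δ x x = 0 := (G.zero x x hxN hxN).2 rfl
  have hkx : x = k := by
    by_contra hcon
    have := h2 x hx hcon
    omega
  subst hkx
  have := h2 y hy (fun h => hne h.symm)
  omega

/-- Two distinct points are on at most one line. -/
lemma Good.line_uniq {S : St} (G : Good S) {l l' : Finset ℕ} (hl : l ∈ S.L) (hl' : l' ∈ S.L)
    {x y : ℕ} (hx : x ∈ l) (hy : y ∈ l) (hx' : x ∈ l') (hy' : y ∈ l') (hne : x ≠ y) : l = l' := by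
  have hxN := G.lt l hl x hx
  have hyN := G.lt l hl y hy
  have h1 := G.one hl hx hy hne
  have h0 : S.δ x x = 0 := (G.zero x x hxN hxN).2 rfl
  exact G.uniq x y hxN hyN (by omega) l hl l' hl' hy hy' x hx x hx' (by omega) (by omega)

/-! ### Step C: a new isolated point -/

/-- The state with a new isolated point. -/
def stC (S : St) (c : ℕ → ℕ) : St where
  N := S.N + 1
  L := S.L
  δ := fun x y => if x < S.N then (if y < S.N then S.δ x y else c x) else
    (if y < S.N then c y else 0)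

lemma stC_oo {S : St} {c : ℕ → ℕ} {x y : ℕ} (hx : x < S.N) (hy : y < S.N) :
    (stC S c).δ x y = S.δ x y := by
  simp [stC, hx, hy]

lemma stC_on {S : St} {c : ℕ → ℕ} {x : ℕ} (hx : x < S.N) :
    (stC S c).δ x S.N = c x := by
  simp [stC, hx]

lemma stC_no {S : St} {c : ℕ → ℕ} {x : ℕ} (hx : x < S.N) :
    (stC S c).δ S.N x = c x := by
  simp [stC, hx]

lemma stC_nn {S : St} {c : ℕ → ℕ} : (stC S c).δ S.N S.N = 0 := by
  simp [stC]

lemma stepC {S : St} (G : Good S) {x0 : ℕ} (hx0 : x0 < S.N) :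
    ∃ S' : St, Good S' ∧ Ext S S' ∧ S.N < S'.N ∧ S'.δ x0 S.N = 2 ∧
      ∀ y, y < S'.N → S'.δ x0 y = 1 → S'.δ S.N y = 1 → False := by
  classical
  obtain ⟨χ, hχ5, hχ⟩ := G.chi
  set c : ℕ → ℕ := fun k => if χ k = χ x0 then 2 else 3 with hc
  have c2 : ∀ k, 2 ≤ c k := by
    intro k
    simp only [hc]
    split_ifs <;> omega
  have c3 : ∀ k, c k ≤ 3 := by
    intro k
    simp only [hc]
    split_ifs <;> omega
  have hcase : ∀ x, x < S.N + 1 → x < S.N ∨ x = S.N := fun x hx => by omega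
  refine ⟨stC S c, ⟨?_, ?_, ?_, ?_, ?_, ?_, ?_, ?_, ?_, ?_⟩, ⟨?_, ?_, ?_⟩, ?_, ?_, ?_⟩
  · intro l hl x hx
    exact Nat.lt_succ_of_lt (G.lt l hl x hx)
  · exact G.card
  · intro x y hx hy
    rcases hcase x hx with hx | rfl <;> rcases hcase y hy with hy | rfl
    · rw [stC_oo hx hy, stC_oo hy hx, G.symm x y hx hy]
    · rw [stC_on hx, stC_no hx]
    · rw [stC_on hy, stC_no hy]
    · rfl
  · intro x y hx hy
    rcases hcase x hx with hx | rfl <;> rcases hcase y hy with hy | rfl
    · rw [stC_oo hx hy, G.zero x y hx hy]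
    · rw [stC_on hx]
      have := c2 x
      constructor <;> intro h <;> omega
    · rw [stC_no hy]
      have := c2 y
      constructor <;> intro h <;> omega
    · rw [stC_nn]; simp
  · intro x y hx hy
    rcases hcase x hx with hx | rfl <;> rcases hcase y hy with hy | rfl
    · rw [stC_oo hx hy]; exact G.le x y hx hy
    · rw [stC_on hx]; exact c3 x
    · rw [stC_no hy]; exact c3 y
    · rw [stC_nn]; norm_num
  · intro x hx l hl
    rcases hcase x hx with hx | rfl
    · exact (G.pat x hx l hl).congr fun y hy => stC_oo hx (G.lt l hl y hy)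
    · have hinj : (l.image χ).card = 5 := by
        rw [Finset.card_image_of_injOn, G.card l hl]
        intro x hx y hy hxy
        by_contra hne
        exact hχ l hl x hx y hy hne hxy
      have hsub : l.image χ ⊆ Finset.range 5 := by
        intro k hk
        rw [Finset.mem_image] at hk
        obtain ⟨x, -, rfl⟩ := hk
        exact Finset.mem_range.2 (hχ5 x)
      have heq : l.image χ = Finset.range 5 :=
        Finset.eq_of_subset_of_card_le hsub (by rw [hinj, Finset.card_range])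
      have hcm : χ x0 ∈ l.image χ := by rw [heq]; exact Finset.mem_range.2 (hχ5 x0)
      rw [Finset.mem_image] at hcm
      obtain ⟨k, hk, hkc⟩ := hcm
      have hck : c k = 2 := by simp [hc, hkc]
      refine ⟨k, hk, ?_, ?_⟩
      · rw [stC_no (G.lt l hl k hk), hck]
      · intro j hj hjk
        rw [stC_no (G.lt l hl k hk), stC_no (G.lt l hl j hj), hck]
        have : χ j ≠ χ x0 := by
          rw [← hkc]; exact hχ l hl j hj k hk hjk
        simp [hc, this]
  · intro x y hx hy
    rcases hcase x hx with hx | rfl <;> rcases hcase y hy with hy | rfl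
    · rw [stC_oo hx hy]; exact G.adj x y hx hy
    · rw [stC_on hx]
      have := c2 x
      intro h; omega
    · rw [stC_no hy]
      have := c2 y
      intro h; omega
    · rw [stC_nn]; intro h; omega
  · intro x v hx _ h2 l hl l' hl' hv hv' k hk k' hk' h3 h4
    have hvN := G.lt l hl v hv
    have hkN := G.lt l hl k hk
    have hkN' := G.lt l' hl' k' hk'
    rcases hcase x hx with hx | rfl
    · rw [stC_oo hx hvN] at h2 h3 h4
      rw [stC_oo hx hkN] at h3
      rw [stC_oo hx hkN'] at h4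
      exact G.uniq x v hx hvN h2 l hl l' hl' hv hv' k hk k' hk' h3 h4
    · exfalso
      rw [stC_no hvN] at h2 h3
      rw [stC_no hkN] at h3
      have := c2 k
      omega
  · exact G.lp
  · exact ⟨χ, hχ5, hχ⟩
  · exact Nat.le_succ _
  · exact subset_rfl
  · intro x y hx hy; exact stC_oo hx hy
  · exact Nat.lt_succ_self _
  · rw [stC_on hx0]; simp [hc]
  · intro y hy _ h
    rcases hcase y hy with hy | rfl
    · rw [stC_no hy] at h
      have := c2 y
      omega
    · rw [stC_nn] at h; omega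

end Pool.Agent.SemiHex
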