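import Pool.Agent.SemiHex.Label

set_option autoImplicit false

/-!
# Adding a midpoint: preservation of the labelling property
-/

namespace Pool.Agent.SemiHex

/-- the two new lines -/
def l1 (N z : ℕ) : Finset ℕ := {z, N, N + 1, N + 2, N + 3}
def l2 (N w : ℕ) : Finset ℕ := {w, N, N + 4, N + 5, N + 6}

lemma mem_l1 {N z x : ℕ} : x ∈ l1 N z ↔ x = z ∨ x = N ∨ x = N + 1 ∨ x = N + 2 ∨ x = N + 3 := by
  simp [l1]

lemma mem_l2 {N w x : ℕ} : x ∈ l2 N w ↔ x = w ∨ x = N ∨ x = N + 4 ∨ x = N + 5 ∨ x = N + 6 := by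
  simp [l2]

lemma card_l1 {N z : ℕ} (h : z < N) : (l1 N z).card = 5 := by
  unfold l1
  rw [Finset.card_insert_of_notMem, Finset.card_insert_of_notMem, Finset.card_insert_of_notMem,
    Finset.card_insert_of_notMem, Finset.card_singleton] <;> simp <;> omega

lemma card_l2 {N w : ℕ} (h : w < N) : (l2 N w).card = 5 := by
  unfold l2
  rw [Finset.card_insert_of_notMem, Finset.card_insert_of_notMem, Finset.card_insert_of_notMem,
    Finset.card_insert_of_notMem, Finset.card_singleton] <;> simp <;> omega

lemma exists_colour (m a b : ℕ) (hm : 3 ≤ m) : ∃ c, c < m ∧ c ≠ a ∧ c ≠ b := by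
  have h : ({a, b} : Finset ℕ).card < (Finset.range m).card := by
    have := Finset.card_le_two (a := a) (b := b)
    rw [Finset.card_range]; omega
  obtain ⟨c, hc1, hc2⟩ := Finset.exists_mem_notMem_of_card_lt_card h
  simp only [Finset.mem_insert, Finset.mem_singleton, not_or] at hc2
  exact ⟨c, Finset.mem_range.1 hc1, hc2.1, hc2.2⟩

lemma lp_step {L : Set (Finset ℕ)} {N z w : ℕ} (hL : ∀ l ∈ L, ∀ x ∈ l, x < N) (hz : z < N)
    (hw : w < N) (hzw : z ≠ w) (H : LP L) : LP (L ∪ {l1 N z, l2 N w}) := by
  classical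
  intro f g hc hf hg
  have hf1 : Pat f (l1 N z) := hf _ (Or.inr (by simp))
  have hf2 : Pat f (l2 N w) := hf _ (Or.inr (by simp))
  have hg1 : Pat g (l1 N z) := hg _ (Or.inr (by simp))
  have hg2 : Pat g (l2 N w) := hg _ (Or.inr (by simp))
  obtain ⟨h, κ₁, κ₂, hp, hline⟩ := H f g hc (fun l hl => hf l (Or.inl hl))
    (fun l hl => hg l (Or.inl hl))
  -- labels of the new midpoint `N`
  obtain ⟨c1, c1a, c1b, c1c⟩ := exists_colour 3 (κ₁ z) (κ₁ w) le_rfl
  obtain ⟨c2, c2a, c2b, c2c⟩ := exists_colour 3 (κ₂ z) (κ₂ w) le_rfl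
  set h0 : ℕ → ℕ := fun x => if x = N then
    (if f N ≤ 2 ∨ g N ≤ 2 then min (f N) (g N) + 1 else 3) else h x with hh0
  set k10 : ℕ → ℕ := fun x => if x = N then c1 else κ₁ x with hk10
  set k20 : ℕ → ℕ := fun x => if x = N then c2 else κ₂ x with hk20
  have hp0 : ∀ x, PtOK (f x) (g x) (h0 x) (k10 x) (k20 x) := by
    intro x
    by_cases hx : x = N
    · subst hx
      simp only [hh0, hk10, hk20, if_true]
      refine ⟨?_, ?_, c1a, c2a⟩
      · intro hfg; rw [if_pos hfg]
      · intro e1 e2
        right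
        rw [if_neg (by omega)]
    · simp only [hh0, hk10, hk20, if_neg hx]
      exact hp x
  have hN3 : ∀ x, x ≠ N → h0 x = h x ∧ k10 x = κ₁ x ∧ k20 x = κ₂ x := by
    intro x hx
    simp [hh0, hk10, hk20, hx]
  have hNO : f N = 3 → g N = 3 → h0 N ≠ 2 := by
    intro e1 e2
    simp only [hh0, if_true]
    rw [if_neg (by omega)]
    norm_num
  have hzN : z ≠ N := by omega
  have hwN : w ≠ N := by omega
  have U1card : ({z, N} : Finset ℕ).card ≤ 2 := Finset.card_le_two
  have U2card : ({w, N} : Finset ℕ).card ≤ 2 := Finset.card_le_two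
  have kN1 : k10 N = c1 := by simp [hk10]
  have kN2 : k20 N = c2 := by simp [hk20]
  obtain ⟨h', k1', k2', e', p', q'⟩ := complete hc hp0 (card_l1 hz) hf1 hg1 U1card
    (by
      intro u hu v hv huv _ _ _ _
      simp only [Finset.mem_insert, Finset.mem_singleton] at hu hv
      rcases hu with rfl | rfl <;> rcases hv with rfl | rfl
      · exact absurd rfl huv
      · rw [kN1, (hN3 u hzN).2.1]; exact fun h => c1b h.symm
      · rw [kN1, (hN3 v hzN).2.1]; exact c1b
      · exact absurd rfl huv)
    (by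
      intro u hu v hv huv _ _ _ _
      simp only [Finset.mem_insert, Finset.mem_singleton] at hu hv
      rcases hu with rfl | rfl <;> rcases hv with rfl | rfl
      · exact absurd rfl huv
      · rw [kN2, (hN3 u hzN).2.2]; exact fun h => c2b h.symm
      · rw [kN2, (hN3 v hzN).2.2]; exact c2b
      · exact absurd rfl huv)
    (by
      intro u hu v hv huv a1 a2 a3 a4 a5 a6
      simp only [Finset.mem_insert, Finset.mem_singleton] at hu hv
      rcases hu with rfl | rfl <;> rcases hv with rfl | rfl
      · exact absurd rfl huv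
      · exact hNO a4 a5 a6
      · exact hNO a1 a2 a3
      · exact absurd rfl huv)
  -- labels outside the new points of `l1`
  have e1 : ∀ x, x < N ∨ x = N ∨ N + 3 < x → h' x = h0 x ∧ k1' x = k10 x ∧ k2' x = k20 x := by
    intro x hx
    apply e'
    by_cases hxl : x ∈ l1 N z
    · right
      rw [mem_l1] at hxl
      simp only [Finset.mem_insert, Finset.mem_singleton]
      omega
    · exact Or.inl hxl
  obtain ⟨h'', k1'', k2'', e'', p'', q''⟩ := complete hc p' (card_l2 hw) hf2 hg2 U2card
    (by
      intro u hu v hv huv _ _ _ _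
      simp only [Finset.mem_insert, Finset.mem_singleton] at hu hv
      have ew := (e1 w (Or.inl hw)).2.1
      have eN := (e1 N (Or.inr (Or.inl rfl))).2.1
      have ew' := (hN3 w hwN).2.1
      rcases hu with rfl | rfl <;> rcases hv with rfl | rfl
      · exact absurd rfl huv
      · rw [eN, kN1, ew, ew']; exact fun h => c1c h.symm
      · rw [eN, kN1, ew, ew']; exact c1c
      · exact absurd rfl huv)
    (by
      intro u hu v hv huv _ _ _ _
      simp only [Finset.mem_insert, Finset.mem_singleton] at hu hv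
      have ew := (e1 w (Or.inl hw)).2.2
      have eN := (e1 N (Or.inr (Or.inl rfl))).2.2
      have ew' := (hN3 w hwN).2.2
      rcases hu with rfl | rfl <;> rcases hv with rfl | rfl
      · exact absurd rfl huv
      · rw [eN, kN2, ew, ew']; exact fun h => c2c h.symm
      · rw [eN, kN2, ew, ew']; exact c2c
      · exact absurd rfl huv)
    (by
      intro u hu v hv huv a1 a2 a3 a4 a5 a6
      simp only [Finset.mem_insert, Finset.mem_singleton] at hu hv
      have eN := (e1 N (Or.inr (Or.inl rfl))).1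
      rcases hu with rfl | rfl <;> rcases hv with rfl | rfl
      · exact absurd rfl huv
      · rw [eN] at a6; exact hNO a4 a5 a6
      · rw [eN] at a3; exact hNO a1 a2 a3
      · exact absurd rfl huv)
  have e2 : ∀ x, x < N ∨ x = N ∨ (N < x ∧ x ≤ N + 3) →
      h'' x = h' x ∧ k1'' x = k1' x ∧ k2'' x = k2' x := by
    intro x hx
    apply e''
    by_cases hxl : x ∈ l2 N w
    · right
      rw [mem_l2] at hxl
      simp only [Finset.mem_insert, Finset.mem_singleton]
      omega
    · exact Or.inl hxl
  refine ⟨h'', k1'', k2'', p'', ?_⟩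
  rintro l (hl | hl)
  · refine (hline l hl).congr ?_
    intro x hx
    have hxN := hL l hl x hx
    have a := e2 x (Or.inl hxN)
    have b := e1 x (Or.inl hxN)
    have c := hN3 x (by omega)
    exact ⟨a.1.trans (b.1.trans c.1), a.2.1.trans (b.2.1.trans c.2.1),
      a.2.2.trans (b.2.2.trans c.2.2)⟩
  · rcases hl with rfl | hl
    · refine q'.congr ?_
      intro x hx
      rw [mem_l1] at hx
      exact e2 x (by omega)
    · rw [Set.mem_singleton_iff] at hl
      subst hl
      exact q''

lemma chi_step {L : Set (Finset ℕ)} {N z w : ℕ} (hL : ∀ l ∈ L, ∀ x ∈ l, x < N) (hz : z < N)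
    (hw : w < N)
    (H : ∃ χ : ℕ → ℕ, (∀ x, χ x < 5) ∧ ∀ l ∈ L, ∀ x ∈ l, ∀ y ∈ l, x ≠ y → χ x ≠ χ y) :
    ∃ χ : ℕ → ℕ, (∀ x, χ x < 5) ∧
      ∀ l ∈ L ∪ {l1 N z, l2 N w}, ∀ x ∈ l, ∀ y ∈ l, x ≠ y → χ x ≠ χ y := by
  classical
  obtain ⟨χ, h1, h2⟩ := H
  obtain ⟨c, ca, cb, cc⟩ := exists_colour 5 (χ z) (χ w) (by norm_num)
  set χ0 : ℕ → ℕ := fun x => if x = N then c else χ x with hχ0
  have a0 : ∀ x, χ0 x < 5 := by
    intro x
    by_cases hx : x = N
    · simp [hχ0, hx, ca]
    · simp [hχ0, hx, h1 x]
  have aN : χ0 N = c := by simp [hχ0]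
  have an : ∀ x, x ≠ N → χ0 x = χ x := fun x hx => by simp [hχ0, hx]
  have hzN : z ≠ N := by omega
  have hwN : w ≠ N := by omega
  obtain ⟨χ1, b1, b2, b3⟩ := ext_inj 5 (l1 N z) {z, N} χ0 (card_l1 hz).le a0 (by
    intro x _ hx y _ hy hxy
    simp only [Finset.mem_insert, Finset.mem_singleton] at hx hy
    rcases hx with rfl | rfl <;> rcases hy with rfl | rfl
    · exact absurd rfl hxy
    · rw [aN, an x hzN]; exact fun h => cb h.symm
    · rw [aN, an y hzN]; exact cb
    · exact absurd rfl hxy)
  have f1 : ∀ x, x < N ∨ x = N ∨ N + 3 < x → χ1 x = χ0 x := by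
    intro x hx
    apply b1
    by_cases hxl : x ∈ l1 N z
    · right
      rw [mem_l1] at hxl
      simp only [Finset.mem_insert, Finset.mem_singleton]
      omega
    · exact Or.inl hxl
  obtain ⟨χ2, d1, d2, d3⟩ := ext_inj 5 (l2 N w) {w, N} χ1 (card_l2 hw).le b2 (by
    intro x _ hx y _ hy hxy
    simp only [Finset.mem_insert, Finset.mem_singleton] at hx hy
    have ew := f1 w (Or.inl hw)
    have eN := f1 N (Or.inr (Or.inl rfl))
    rcases hx with rfl | rfl <;> rcases hy with rfl | rfl
    · exact absurd rfl hxy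
    · rw [eN, aN, ew, an x hwN]; exact fun h => cc h.symm
    · rw [eN, aN, ew, an y hwN]; exact cc
    · exact absurd rfl hxy)
  have f2 : ∀ x, x < N ∨ x = N ∨ (N < x ∧ x ≤ N + 3) → χ2 x = χ1 x := by
    intro x hx
    apply d1
    by_cases hxl : x ∈ l2 N w
    · right
      rw [mem_l2] at hxl
      simp only [Finset.mem_insert, Finset.mem_singleton]
      omega
    · exact Or.inl hxl
  refine ⟨χ2, d2, ?_⟩
  rintro l (hl | hl) x hx y hy hxy
  · have hxN := hL l hl x hx
    have hyN := hL l hl y hy
    rw [f2 x (Or.inl hxN), f1 x (Or.inl hxN), an x (by omega), f2 y (Or.inl hyN),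
      f1 y (Or.inl hyN), an y (by omega)]
    exact h2 l hl x hx y hy hxy
  · rcases hl with rfl | hl
    · have hx' := hx
      have hy' := hy
      rw [mem_l1] at hx hy
      rw [f2 x (by omega), f2 y (by omega)]
      exact b3 x hx' y hy' hxy
    · rw [Set.mem_singleton_iff] at hl
      subst hl
      exact d3 x hx y hy hxy

/-- distance from a point to a pendant of colour `c` -/
def E (a h k c : ℕ) : ℕ := if a = 3 ∧ h = 3 then (if k = c then 2 else 3) else min a h + 1

lemma patE {f g h κ₁ κ₂ : ℕ → ℕ} (hc : ∀ x, Compat (f x) (g x))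
    (hp : ∀ x, PtOK (f x) (g x) (h x) (κ₁ x) (κ₂ x)) {l : Finset ℕ} (hl : l.card = 5)
    (hf : Pat f l) (hg : Pat g l) (hO : LineOK f g h κ₁ κ₂ l) {c : ℕ} (hc3 : c < 3) :
    Pat (fun x => E (f x) (h x) (κ₁ x) c) l := by
  classical
  obtain ⟨x0, hx0, a1, a2⟩ := hf
  obtain ⟨x1, hx1, b1, b2⟩ := hO.pat
  have hpos : ∀ x, 1 ≤ h x := by
    intro x
    have := hp x
    have := hc x
    unfold PtOK at *
    unfold Compat at *
    omega
  by_cases hne : x0 = x1
  · subst hne
    -- the nearest point is `x0` for both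
    refine ⟨x0, hx0, ?_, ?_⟩
    · have := hc x0
      have := (hp x0).1
      show E (f x0) (h x0) (κ₁ x0) c ≤ 2
      unfold E
      rw [if_neg (by omega)]
      unfold Compat at *
      omega
    · intro j hj hjne
      have c0 := hc x0
      have cj := hc j
      have p0 := (hp x0).1
      have pj := (hp j).1
      have e1 := a2 j hj hjne
      have e2 := b2 j hj hjne
      show E (f j) (h j) (κ₁ j) c = E (f x0) (h x0) (κ₁ x0) c + 1
      unfold E
      rw [if_neg (by unfold Compat at *; omega), if_neg (by omega)]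
      unfold Compat at *
      omega
  · have f1 := a2 x1 hx1 (fun h => hne h.symm)
    have h0 := b2 x0 hx0 hne
    have c0 := hc x0
    have c1 := hc x1
    have p0 := (hp x0).1
    have p1 := (hp x1).1
    have q0 := hpos x0
    have q1 := hpos x1
    by_cases hf0 : f x0 = 2
    · -- three coloured points
      have hx13 : h x1 = 2 := by unfold Compat at *; omega
      set C := (l.erase x0).erase x1 with hC
      have hCc : C.card = 3 := by
        rw [hC, Finset.card_erase_of_mem (Finset.mem_erase.2 ⟨fun h => hne h.symm, hx1⟩),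
          Finset.card_erase_of_mem hx0, hl]
      have hCm : ∀ x ∈ C, x ∈ l ∧ f x = 3 ∧ h x = 3 := by
        intro x hx
        rw [hC, Finset.mem_erase, Finset.mem_erase] at hx
        have e1 := a2 x hx.2.2 hx.2.1
        have e2 := b2 x hx.2.2 hx.1
        exact ⟨hx.2.2, by omega, by omega⟩
      have hinj : (C.image κ₁).card = 3 := by
        rw [Finset.card_image_of_injOn, hCc]
        intro x hx y hy hxy
        by_contra hne'
        have mx := hCm x hx
        have my := hCm y hy
        exact hO.c1 x mx.1 y my.1 hne' mx.2.1 mx.2.2 my.2.1 my.2.2 hxy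
      have hsub : C.image κ₁ ⊆ Finset.range 3 := by
        intro k hk
        rw [Finset.mem_image] at hk
        obtain ⟨x, -, rfl⟩ := hk
        exact Finset.mem_range.2 (hp x).2.2.1
      have heq : C.image κ₁ = Finset.range 3 :=
        Finset.eq_of_subset_of_card_le hsub (by rw [hinj, Finset.card_range])
      have hcm : c ∈ C.image κ₁ := by rw [heq]; exact Finset.mem_range.2 hc3
      rw [Finset.mem_image] at hcm
      obtain ⟨x2, hx2, hx2c⟩ := hcm
      have m2 := hCm x2 hx2
      have E2 : E (f x2) (h x2) (κ₁ x2) c = 2 := by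
        unfold E
        rw [if_pos m2.2, if_pos hx2c]
      refine ⟨x2, m2.1, ?_, ?_⟩
      · show E (f x2) (h x2) (κ₁ x2) c ≤ 2
        omega
      · intro j hj hjne
        show E (f j) (h j) (κ₁ j) c = E (f x2) (h x2) (κ₁ x2) c + 1
        rw [E2]
        by_cases hj0 : j = x0
        · subst hj0
          unfold E
          rw [if_neg (by omega)]
          omega
        by_cases hj1 : j = x1
        · subst hj1
          unfold E
          rw [if_neg (by omega)]
          omega
        have hjC : j ∈ C := by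
          rw [hC, Finset.mem_erase, Finset.mem_erase]; exact ⟨hj1, hj0, hj⟩
        have mj := hCm j hjC
        have hjc : κ₁ j ≠ c := by
          intro h
          exact hO.c1 j mj.1 x2 m2.1 hjne mj.2.1 mj.2.2 m2.2.1 m2.2.2 (h.trans hx2c.symm)
        unfold E
        rw [if_pos mj.2, if_neg hjc]
    · -- `f x0 ≤ 1`: impossible to have different nearest points
      exfalso
      obtain ⟨y0, hy0, d1, d2⟩ := hg
      have hg1 : g x1 = 0 := by unfold Compat at *; omega
      have hy : x1 = y0 := by
        by_contra hcon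
        have := d2 x1 hx1 hcon
        omega
      subst hy
      have := d2 x0 hx0 hne
      unfold Compat at *
      omega

end Pool.Agent.SemiHex
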