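import Pool.Agent.SemiHex.State

set_option autoImplicit false

/-!
# Step B: realizing a pair of points at distance two
-/

namespace Pool.Agent.SemiHex

/-- distances from the new point `N + p` to the old point `x` -/
def nw (f g h κ₁ κ₂ : ℕ → ℕ) (p x : ℕ) : ℕ :=
  if p = 0 then h x else if p ≤ 3 then E (f x) (h x) (κ₁ x) (p - 1) else
    E (g x) (h x) (κ₂ x) (p - 4)

/-- distances between the new points `N + p` and `N + q` -/
def nn (p q : ℕ) : ℕ :=
  if p = q then 0 else if p = 0 ∨ q = 0 then 1 else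
    if (p ≤ 3 ∧ q ≤ 3) ∨ (4 ≤ p ∧ 4 ≤ q) then 1 else 2

/-- The state with a common neighbour of `z` and `w`. -/
def stB (S : St) (z w : ℕ) (f g h κ₁ κ₂ : ℕ → ℕ) : St where
  N := S.N + 7
  L := S.L ∪ {l1 S.N z, l2 S.N w}
  δ := fun x y => if x < S.N then
      (if y < S.N then S.δ x y else nw f g h κ₁ κ₂ (y - S.N) x) else
      (if y < S.N then nw f g h κ₁ κ₂ (x - S.N) y else nn (x - S.N) (y - S.N))

/-- The data used in step B. -/
structure Ctx (S : St) (z w : ℕ) (f g h κ₁ κ₂ : ℕ → ℕ) : Prop where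
  G : Good S
  hz : z < S.N
  hw : w < S.N
  hzw : S.δ z w = 2
  hun : ∀ y, y < S.N → S.δ z y = 1 → S.δ w y = 1 → False
  hf : ∀ x, x < S.N → f x = S.δ z x
  hg : ∀ x, x < S.N → g x = S.δ w x
  hc : ∀ x, Compat (f x) (g x)
  hp : ∀ x, PtOK (f x) (g x) (h x) (κ₁ x) (κ₂ x)
  hl : ∀ l ∈ S.L, LineOK f g h κ₁ κ₂ l

section

variable {S : St} {z w : ℕ} {f g h κ₁ κ₂ : ℕ → ℕ}

lemma stB_oo {x y : ℕ} (hx : x < S.N) (hy : y < S.N) :
    (stB S z w f g h κ₁ κ₂).δ x y = S.δ x y := by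
  simp [stB, hx, hy]

lemma stB_on {x p : ℕ} (hx : x < S.N) :
    (stB S z w f g h κ₁ κ₂).δ x (S.N + p) = nw f g h κ₁ κ₂ p x := by
  simp [stB, hx]

lemma stB_no {x p : ℕ} (hx : x < S.N) :
    (stB S z w f g h κ₁ κ₂).δ (S.N + p) x = nw f g h κ₁ κ₂ p x := by
  simp [stB, hx]

lemma stB_nn {p q : ℕ} :
    (stB S z w f g h κ₁ κ₂).δ (S.N + p) (S.N + q) = nn p q := by
  simp [stB]

lemma E_pos (a h k c : ℕ) : 1 ≤ E a h k c := by
  unfold E
  split_ifs <;> omega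

namespace Ctx

variable (C : Ctx S z w f g h κ₁ κ₂)

include C

lemma hne : z ≠ w := by
  intro hzw
  have := C.hzw
  rw [hzw] at this
  have h0 := (C.G.zero w w C.hw C.hw).2 rfl
  omega

lemma h_pos (x : ℕ) : 1 ≤ h x ∧ h x ≤ 3 := by
  have h1 := C.hp x
  have h2 := C.hc x
  unfold PtOK at h1
  unfold Compat at h2
  omega

lemma f_le (x : ℕ) : f x ≤ 3 ∧ g x ≤ 3 := by
  have h2 := C.hc x
  unfold Compat at h2
  omega

lemma E1_le (x c : ℕ) : E (f x) (h x) (κ₁ x) c ≤ 3 := by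
  have := C.h_pos x
  have := C.f_le x
  unfold E
  split_ifs <;> omega

lemma E2_le (x c : ℕ) : E (g x) (h x) (κ₂ x) c ≤ 3 := by
  have := C.h_pos x
  have := C.f_le x
  unfold E
  split_ifs <;> omega

lemma nw_pos (p x : ℕ) : 1 ≤ nw f g h κ₁ κ₂ p x := by
  unfold nw
  split_ifs
  · exact (C.h_pos x).1
  · exact E_pos _ _ _ _
  · exact E_pos _ _ _ _

lemma nw_le (p x : ℕ) : nw f g h κ₁ κ₂ p x ≤ 3 := by
  unfold nw
  split_ifs
  · exact (C.h_pos x).2
  · exact C.E1_le x _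
  · exact C.E2_le x _

lemma f0 {x : ℕ} (hx : x < S.N) (h0 : f x = 0) : x = z := by
  rw [C.hf x hx, C.G.zero z x C.hz hx] at h0
  exact h0.symm

lemma g0 {x : ℕ} (hx : x < S.N) (h0 : g x = 0) : x = w := by
  rw [C.hg x hx, C.G.zero w x C.hw hx] at h0
  exact h0.symm

lemma fz : f z = 0 := by
  rw [C.hf z C.hz, C.G.zero z z C.hz C.hz]

lemma gw : g w = 0 := by
  rw [C.hg w C.hw, C.G.zero w w C.hw C.hw]

lemma fw : f w = 2 := by
  rw [C.hf w C.hw, C.hzw]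

lemma gz : g z = 2 := by
  rw [C.hg z C.hz, C.G.symm w z C.hw C.hz, C.hzw]

lemma hhz : h z = 1 := by
  have h1 := (C.hp z).1
  have h2 := C.fz
  have h3 := C.gz
  omega

lemma hhw : h w = 1 := by
  have h1 := (C.hp w).1
  have h2 := C.fw
  have h3 := C.gw
  omega

/-- `nw p x = 1` for an old point forces `x = z` or `x = w`, on the appropriate side. -/
lemma nw_one {p x : ℕ} (hx : x < S.N) (h1 : nw f g h κ₁ κ₂ p x = 1) :
    (x = z ∧ p ≤ 3) ∨ (x = w ∧ (p = 0 ∨ 4 ≤ p)) := by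
  have hh := C.h_pos x
  have hp := (C.hp x)
  have hc := C.hc x
  unfold nw at h1
  by_cases p0 : p = 0
  · rw [if_pos p0] at h1
    have hmin : f x = 0 ∨ g x = 0 := by
      unfold PtOK at hp
      unfold Compat at hc
      omega
    rcases hmin with hm | hm
    · left; exact ⟨C.f0 hx hm, by omega⟩
    · right; exact ⟨C.g0 hx hm, Or.inl p0⟩
  · rw [if_neg p0] at h1
    by_cases p3 : p ≤ 3
    · rw [if_pos p3] at h1
      left
      refine ⟨C.f0 hx ?_, p3⟩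
      unfold E at h1
      split_ifs at h1 <;> omega
    · rw [if_neg p3] at h1
      right
      refine ⟨C.g0 hx ?_, Or.inr (by omega)⟩
      unfold E at h1
      split_ifs at h1 <;> omega

lemma nw_z {p : ℕ} (hp7 : p < 7) : nw f g h κ₁ κ₂ p z = if p ≤ 3 then 1 else 2 := by
  have h1 := C.fz
  have h2 := C.gz
  have h3 := C.hhz
  unfold nw E
  rw [h1, h2, h3]
  split_ifs <;> omega

lemma nw_w {p : ℕ} (hp7 : p < 7) :
    nw f g h κ₁ κ₂ p w = if p = 0 ∨ 4 ≤ p then 1 else 2 := by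
  have h1 := C.fw
  have h2 := C.gw
  have h3 := C.hhw
  unfold nw E
  rw [h1, h2, h3]
  split_ifs <;> omega

/-- No line contains both `z` and `w`. -/
lemma no_zw {l : Finset ℕ} (hl : l ∈ S.L) (h1 : z ∈ l) (h2 : w ∈ l) : False := by
  have := C.G.one hl h1 h2 C.hne
  have := C.hzw
  omega

lemma pat_new {l : Finset ℕ} (hl : l ∈ S.L) {p : ℕ} (hp7 : p < 7) :
    Pat (nw f g h κ₁ κ₂ p) l := by
  have hf : Pat f l := (C.G.pat z C.hz l hl).congr fun x hx => C.hf x (C.G.lt l hl x hx)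
  have hg : Pat g l := (C.G.pat w C.hw l hl).congr fun x hx => C.hg x (C.G.lt l hl x hx)
  have hcard := C.G.card l hl
  by_cases p0 : p = 0
  · refine (C.hl l hl).pat.congr fun x _ => ?_
    simp [nw, p0]
  by_cases p3 : p ≤ 3
  · refine (patE C.hc C.hp hcard hf hg (C.hl l hl) (c := p - 1) (by omega)).congr fun x _ => ?_
    simp [nw, p0, p3]
  · refine (patE (fun x => (C.hc x).symm) (fun x => (C.hp x).symm) hcard hg hf (C.hl l hl).symm
      (c := p - 4) (by omega)).congr fun x _ => ?_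
    simp [nw, p0, p3]

end Ctx

/-- a pattern lemma for five given points -/
lemma pat_five {F : ℕ → ℕ} {l : Finset ℕ} {y0 y1 y2 y3 y4 : ℕ}
    (hl : l = {y0, y1, y2, y3, y4}) {a : ℕ} (ha : a ≤ 2)
    (H : (F y0 = a ∧ F y1 = a + 1 ∧ F y2 = a + 1 ∧ F y3 = a + 1 ∧ F y4 = a + 1) ∨
      (F y0 = a + 1 ∧ F y1 = a ∧ F y2 = a + 1 ∧ F y3 = a + 1 ∧ F y4 = a + 1) ∨
      (F y0 = a + 1 ∧ F y1 = a + 1 ∧ F y2 = a ∧ F y3 = a + 1 ∧ F y4 = a + 1) ∨
      (F y0 = a + 1 ∧ F y1 = a + 1 ∧ F y2 = a + 1 ∧ F y3 = a ∧ F y4 = a + 1) ∨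
      (F y0 = a + 1 ∧ F y1 = a + 1 ∧ F y2 = a + 1 ∧ F y3 = a + 1 ∧ F y4 = a)) : Pat F l := by
  have hm : ∀ x, x ∈ l ↔ x = y0 ∨ x = y1 ∨ x = y2 ∨ x = y3 ∨ x = y4 := by
    intro x; rw [hl]; simp
  rcases H with H | H | H | H | H
  · refine ⟨y0, (hm _).2 (by simp), by omega, ?_⟩
    intro j hj hne
    rcases (hm _).1 hj with rfl | rfl | rfl | rfl | rfl
    · exact absurd rfl hne
    all_goals omega
  · refine ⟨y1, (hm _).2 (by simp), by omega, ?_⟩
    intro j hj hne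
    rcases (hm _).1 hj with rfl | rfl | rfl | rfl | rfl
    · omega
    · exact absurd rfl hne
    all_goals omega
  · refine ⟨y2, (hm _).2 (by simp), by omega, ?_⟩
    intro j hj hne
    rcases (hm _).1 hj with rfl | rfl | rfl | rfl | rfl
    · omega
    · omega
    · exact absurd rfl hne
    all_goals omega
  · refine ⟨y3, (hm _).2 (by simp), by omega, ?_⟩
    intro j hj hne
    rcases (hm _).1 hj with rfl | rfl | rfl | rfl | rfl
    · omega
    · omega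
    · omega
    · exact absurd rfl hne
    · omega
  · refine ⟨y4, (hm _).2 (by simp), by omega, ?_⟩
    intro j hj hne
    rcases (hm _).1 hj with rfl | rfl | rfl | rfl | rfl
    · omega
    · omega
    · omega
    · omega
    · exact absurd rfl hne

/-- The values along a new line follow the pattern. -/
lemma pat_side {F : ℕ → ℕ} {l : Finset ℕ} {y0 y1 y2 y3 y4 : ℕ}
    (hl : l = {y0, y1, y2, y3, y4}) {a b h' k k' : ℕ} (hc : Compat a b) (hp : PtOK a b h' k k')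
    (e0 : F y0 = a) (e1 : F y1 = h') (e2 : F y2 = E a h' k 0) (e3 : F y3 = E a h' k 1)
    (e4 : F y4 = E a h' k 2) : Pat F l := by
  obtain ⟨hp1, hp2, hp3, -⟩ := hp
  -- the possible values of `a` and `h'`
  have hval : (a = 0 ∧ h' = 1) ∨ (a = 1 ∧ h' = 2) ∨ (a = 2 ∧ h' = 1) ∨ (a = 2 ∧ h' = 3) ∨
      (a = 3 ∧ h' = 2) ∨ (a = 3 ∧ h' = 3) := by
    rcases hc with hc | hc | hc | hc | hc | hc | hc | hc
    all_goals first
      | (have := hp1 (by omega); omega)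
      | (have := hp2 hc.1 hc.2; omega)
  rcases hval with ⟨rfl, rfl⟩ | ⟨rfl, rfl⟩ | ⟨rfl, rfl⟩ | ⟨rfl, rfl⟩ | ⟨rfl, rfl⟩ | ⟨rfl, rfl⟩
  · simp [E] at e2 e3 e4
    exact pat_five hl (a := 0) (by norm_num) (Or.inl ⟨e0, e1, e2, e3, e4⟩)
  · simp [E] at e2 e3 e4
    exact pat_five hl (a := 1) (by norm_num) (Or.inl ⟨e0, e1, e2, e3, e4⟩)
  · simp [E] at e2 e3 e4
    exact pat_five hl (a := 1) (by norm_num) (Or.inr (Or.inl ⟨e0, e1, e2, e3, e4⟩))
  · simp [E] at e2 e3 e4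
    exact pat_five hl (a := 2) (by norm_num) (Or.inl ⟨e0, e1, e2, e3, e4⟩)
  · simp [E] at e2 e3 e4
    exact pat_five hl (a := 2) (by norm_num) (Or.inr (Or.inl ⟨e0, e1, e2, e3, e4⟩))
  · have hk : k = 0 ∨ k = 1 ∨ k = 2 := by omega
    rcases hk with rfl | rfl | rfl
    · simp [E] at e2 e3 e4
      exact pat_five hl (a := 2) (by norm_num)
        (Or.inr (Or.inr (Or.inl ⟨e0, e1, e2, e3, e4⟩)))
    · simp [E] at e2 e3 e4
      exact pat_five hl (a := 2) (by norm_num)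
        (Or.inr (Or.inr (Or.inr (Or.inl ⟨e0, e1, e2, e3, e4⟩))))
    · simp [E] at e2 e3 e4
      exact pat_five hl (a := 2) (by norm_num)
        (Or.inr (Or.inr (Or.inr (Or.inr ⟨e0, e1, e2, e3, e4⟩))))

end

end Pool.Agent.SemiHex
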