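import Pool.Agent.SemiHex.StepB

set_option autoImplicit false

/-!
# Step B: the new state is good
-/

namespace Pool.Agent.SemiHex

section

variable {S : St} {z w : ℕ} {f g h κ₁ κ₂ : ℕ → ℕ}

/-- A point of the new state is old or `N + p` with `p < 7`. -/
lemma cases_pt {N x : ℕ} (hx : x < N + 7) : x < N ∨ ∃ p, p < 7 ∧ x = N + p := by
  rcases Nat.lt_or_ge x N with h | h
  · exact Or.inl h
  · exact Or.inr ⟨x - N, by omega, by omega⟩

lemma mem_L' {l : Finset ℕ} (hl : l ∈ (stB S z w f g h κ₁ κ₂).L) :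
    l ∈ S.L ∨ l = l1 S.N z ∨ l = l2 S.N w := by
  simp only [stB, Set.mem_union, Set.mem_insert_iff, Set.mem_singleton_iff] at hl
  exact hl

namespace Ctx

variable (C : Ctx S z w f g h κ₁ κ₂)

include C

lemma B_lt : ∀ l ∈ (stB S z w f g h κ₁ κ₂).L, ∀ x ∈ l, x < (stB S z w f g h κ₁ κ₂).N := by
  intro l hl x hx
  have hz := C.hz
  have hw := C.hw
  show x < S.N + 7
  rcases mem_L' hl with hl | rfl | rfl
  · have := C.G.lt l hl x hx; omega
  · rw [mem_l1] at hx; omega
  · rw [mem_l2] at hx; omega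

lemma B_card : ∀ l ∈ (stB S z w f g h κ₁ κ₂).L, l.card = 5 := by
  intro l hl
  rcases mem_L' hl with hl | rfl | rfl
  · exact C.G.card l hl
  · exact card_l1 C.hz
  · exact card_l2 C.hw

omit C in
lemma nn_symm (p q : ℕ) : nn p q = nn q p := by
  unfold nn
  split_ifs <;> omega

lemma B_symm : ∀ x y, x < (stB S z w f g h κ₁ κ₂).N → y < (stB S z w f g h κ₁ κ₂).N →
    (stB S z w f g h κ₁ κ₂).δ x y = (stB S z w f g h κ₁ κ₂).δ y x := by
  intro x y hx hy
  rcases cases_pt hx with hx | ⟨p, hp, rfl⟩ <;> rcases cases_pt hy with hy | ⟨q, hq, rfl⟩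
  · rw [stB_oo hx hy, stB_oo hy hx, C.G.symm x y hx hy]
  · rw [stB_on hx, stB_no hx]
  · rw [stB_on hy, stB_no hy]
  · rw [stB_nn, stB_nn]; exact nn_symm p q

lemma B_zero : ∀ x y, x < (stB S z w f g h κ₁ κ₂).N → y < (stB S z w f g h κ₁ κ₂).N →
    ((stB S z w f g h κ₁ κ₂).δ x y = 0 ↔ x = y) := by
  intro x y hx hy
  rcases cases_pt hx with hx | ⟨p, hp, rfl⟩ <;> rcases cases_pt hy with hy | ⟨q, hq, rfl⟩
  · rw [stB_oo hx hy]; exact C.G.zero x y hx hy
  · rw [stB_on hx]
    have := C.nw_pos q x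
    constructor <;> intro h <;> omega
  · rw [stB_no hy]
    have := C.nw_pos p y
    constructor <;> intro h <;> omega
  · rw [stB_nn]
    by_cases hpq : p = q
    · subst hpq
      simp [nn]
    · have h1 : 1 ≤ nn p q := by
        unfold nn
        rw [if_neg hpq]
        split_ifs <;> omega
      constructor <;> intro h <;> omega

lemma B_le : ∀ x y, x < (stB S z w f g h κ₁ κ₂).N → y < (stB S z w f g h κ₁ κ₂).N →
    (stB S z w f g h κ₁ κ₂).δ x y ≤ 3 := by
  intro x y hx hy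
  rcases cases_pt hx with hx | ⟨p, hp, rfl⟩ <;> rcases cases_pt hy with hy | ⟨q, hq, rfl⟩
  · rw [stB_oo hx hy]; exact C.G.le x y hx hy
  · rw [stB_on hx]; exact C.nw_le q x
  · rw [stB_no hy]; exact C.nw_le p y
  · rw [stB_nn]
    unfold nn
    split_ifs <;> omega

lemma B_pat : ∀ x, x < (stB S z w f g h κ₁ κ₂).N → ∀ l ∈ (stB S z w f g h κ₁ κ₂).L,
    Pat ((stB S z w f g h κ₁ κ₂).δ x) l := by
  intro x hx l hl
  have hz := C.hz
  have hw := C.hw
  rcases cases_pt hx with hx | ⟨p, hp, rfl⟩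
  · rcases mem_L' hl with hl | rfl | rfl
    · exact (C.G.pat x hx l hl).congr fun y hy => stB_oo hx (C.G.lt l hl y hy)
    · refine pat_side (F := (stB S z w f g h κ₁ κ₂).δ x) rfl (C.hc x) (C.hp x) ?_ ?_ ?_ ?_ ?_
      · rw [stB_oo hx hz, C.hf x hx, C.G.symm x z hx hz]
      · have := stB_on (z := z) (w := w) (f := f) (g := g) (h := h) (κ₁ := κ₁) (κ₂ := κ₂)
          (p := 0) hx
        rw [Nat.add_zero] at this
        rw [this]; simp [nw]
      · rw [stB_on hx]; simp [nw]
      · rw [stB_on hx]; simp [nw]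
      · rw [stB_on hx]; simp [nw]
    · refine pat_side (F := (stB S z w f g h κ₁ κ₂).δ x) rfl (C.hc x).symm (C.hp x).symm
        ?_ ?_ ?_ ?_ ?_
      · rw [stB_oo hx hw, C.hg x hx, C.G.symm x w hx hw]
      · have := stB_on (z := z) (w := w) (f := f) (g := g) (h := h) (κ₁ := κ₁) (κ₂ := κ₂)
          (p := 0) hx
        rw [Nat.add_zero] at this
        rw [this]; simp [nw]
      · rw [stB_on hx]; simp [nw]
      · rw [stB_on hx]; simp [nw]
      · rw [stB_on hx]; simp [nw]
  · rcases mem_L' hl with hl | rfl | rfl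
    · exact (C.pat_new hl hp).congr fun y hy => stB_no (C.G.lt l hl y hy)
    · have e0 : (stB S z w f g h κ₁ κ₂).δ (S.N + p) z = if p ≤ 3 then 1 else 2 := by
        rw [stB_no hz, C.nw_z hp]
      have e1 : (stB S z w f g h κ₁ κ₂).δ (S.N + p) S.N = nn p 0 := by
        have := stB_nn (S := S) (z := z) (w := w) (f := f) (g := g) (h := h) (κ₁ := κ₁)
          (κ₂ := κ₂) (p := p) (q := 0)
        rw [Nat.add_zero] at this
        exact this
      have e2 : (stB S z w f g h κ₁ κ₂).δ (S.N + p) (S.N + 1) = nn p 1 := stB_nn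
      have e3 : (stB S z w f g h κ₁ κ₂).δ (S.N + p) (S.N + 2) = nn p 2 := stB_nn
      have e4 : (stB S z w f g h κ₁ κ₂).δ (S.N + p) (S.N + 3) = nn p 3 := stB_nn
      have hp' : p = 0 ∨ p = 1 ∨ p = 2 ∨ p = 3 ∨ p = 4 ∨ p = 5 ∨ p = 6 := by omega
      rcases hp' with rfl | rfl | rfl | rfl | rfl | rfl | rfl
      · rw [Nat.add_zero] at e0 e1 e2 e3 e4 ⊢
        simp [nn] at e0 e1 e2 e3 e4
        exact pat_five rfl (a := 0) (by norm_num) (by omega)
      · simp [nn] at e0 e1 e2 e3 e4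
        exact pat_five rfl (a := 0) (by norm_num) (by omega)
      · simp [nn] at e0 e1 e2 e3 e4
        exact pat_five rfl (a := 0) (by norm_num) (by omega)
      · simp [nn] at e0 e1 e2 e3 e4
        exact pat_five rfl (a := 0) (by norm_num) (by omega)
      · simp [nn] at e0 e1 e2 e3 e4
        exact pat_five rfl (a := 1) (by norm_num) (by omega)
      · simp [nn] at e0 e1 e2 e3 e4
        exact pat_five rfl (a := 1) (by norm_num) (by omega)
      · simp [nn] at e0 e1 e2 e3 e4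
        exact pat_five rfl (a := 1) (by norm_num) (by omega)
    · have e0 : (stB S z w f g h κ₁ κ₂).δ (S.N + p) w = if p = 0 ∨ 4 ≤ p then 1 else 2 := by
        rw [stB_no hw, C.nw_w hp]
      have e1 : (stB S z w f g h κ₁ κ₂).δ (S.N + p) S.N = nn p 0 := by
        have := stB_nn (S := S) (z := z) (w := w) (f := f) (g := g) (h := h) (κ₁ := κ₁)
          (κ₂ := κ₂) (p := p) (q := 0)
        rw [Nat.add_zero] at this
        exact this
      have e2 : (stB S z w f g h κ₁ κ₂).δ (S.N + p) (S.N + 4) = nn p 4 := stB_nn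
      have e3 : (stB S z w f g h κ₁ κ₂).δ (S.N + p) (S.N + 5) = nn p 5 := stB_nn
      have e4 : (stB S z w f g h κ₁ κ₂).δ (S.N + p) (S.N + 6) = nn p 6 := stB_nn
      have hp' : p = 0 ∨ p = 1 ∨ p = 2 ∨ p = 3 ∨ p = 4 ∨ p = 5 ∨ p = 6 := by omega
      rcases hp' with rfl | rfl | rfl | rfl | rfl | rfl | rfl
      · rw [Nat.add_zero] at e0 e1 e2 e3 e4 ⊢
        simp [nn] at e0 e1 e2 e3 e4
        exact pat_five rfl (a := 0) (by norm_num) (by omega)
      · simp [nn] at e0 e1 e2 e3 e4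
        exact pat_five rfl (a := 1) (by norm_num) (by omega)
      · simp [nn] at e0 e1 e2 e3 e4
        exact pat_five rfl (a := 1) (by norm_num) (by omega)
      · simp [nn] at e0 e1 e2 e3 e4
        exact pat_five rfl (a := 1) (by norm_num) (by omega)
      · simp [nn] at e0 e1 e2 e3 e4
        exact pat_five rfl (a := 0) (by norm_num) (by omega)
      · simp [nn] at e0 e1 e2 e3 e4
        exact pat_five rfl (a := 0) (by norm_num) (by omega)
      · simp [nn] at e0 e1 e2 e3 e4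
        exact pat_five rfl (a := 0) (by norm_num) (by omega)

end Ctx

lemma mem_l1' {N z p : ℕ} (hz : z < N) : N + p ∈ l1 N z ↔ p ≤ 3 := by
  rw [mem_l1]; omega

lemma mem_l2' {N w p : ℕ} (hw : w < N) : N + p ∈ l2 N w ↔ p = 0 ∨ (4 ≤ p ∧ p ≤ 6) := by
  rw [mem_l2]; omega

lemma l1_mem : l1 S.N z ∈ (stB S z w f g h κ₁ κ₂).L := by
  simp [stB]

lemma l2_mem : l2 S.N w ∈ (stB S z w f g h κ₁ κ₂).L := by
  simp [stB]

namespace Ctx

variable (C : Ctx S z w f g h κ₁ κ₂)

include C

lemma B_adj : ∀ x y, x < (stB S z w f g h κ₁ κ₂).N → y < (stB S z w f g h κ₁ κ₂).N →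
    (stB S z w f g h κ₁ κ₂).δ x y = 1 → ∃ l ∈ (stB S z w f g h κ₁ κ₂).L, x ∈ l ∧ y ∈ l := by
  have hz := C.hz
  have hw := C.hw
  have key : ∀ x q, x < S.N → q < 7 → nw f g h κ₁ κ₂ q x = 1 →
      ∃ l ∈ (stB S z w f g h κ₁ κ₂).L, x ∈ l ∧ S.N + q ∈ l := by
    intro x q hx hq h1
    rcases C.nw_one hx h1 with ⟨rfl, hq3⟩ | ⟨rfl, hq3⟩
    · exact ⟨_, l1_mem, by simp [l1], (mem_l1' hz).2 hq3⟩
    · exact ⟨_, l2_mem, by simp [l2], (mem_l2' hw).2 (by omega)⟩
  intro x y hx hy
  rcases cases_pt hx with hx | ⟨p, hp, rfl⟩ <;> rcases cases_pt hy with hy | ⟨q, hq, rfl⟩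
  · rw [stB_oo hx hy]
    intro h1
    obtain ⟨l, hl, h2⟩ := C.G.adj x y hx hy h1
    exact ⟨l, Or.inl hl, h2⟩
  · rw [stB_on hx]
    exact key x q hx hq
  · rw [stB_no hy]
    intro h1
    obtain ⟨l, hl, h2, h3⟩ := key y p hy hp h1
    exact ⟨l, hl, h3, h2⟩
  · rw [stB_nn]
    intro h1
    unfold nn at h1
    by_cases hpq : p ≤ 3 ∧ q ≤ 3
    · exact ⟨_, l1_mem, (mem_l1' hz).2 hpq.1, (mem_l1' hz).2 hpq.2⟩
    · refine ⟨_, l2_mem, (mem_l2' hw).2 ?_, (mem_l2' hw).2 ?_⟩ <;> split_ifs at h1 <;> omega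

/-- uniqueness for two old lines -/
lemma B_uniq_oo {x v : ℕ} (hx : x < S.N + 7)
    (h2 : (stB S z w f g h κ₁ κ₂).δ x v ≤ 2) {l l' : Finset ℕ} (hl : l ∈ S.L) (hl' : l' ∈ S.L)
    (hv : v ∈ l) (hv' : v ∈ l') {k k' : ℕ} (hk : k ∈ l) (hk' : k' ∈ l')
    (h3 : (stB S z w f g h κ₁ κ₂).δ x k < (stB S z w f g h κ₁ κ₂).δ x v)
    (h4 : (stB S z w f g h κ₁ κ₂).δ x k' < (stB S z w f g h κ₁ κ₂).δ x v) : l = l' := by
  have hvN := C.G.lt l hl v hv
  have hkN := C.G.lt l hl k hk
  have hkN' := C.G.lt l' hl' k' hk'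
  rcases cases_pt hx with hx | ⟨p, hp, rfl⟩
  · rw [stB_oo hx hvN] at h2 h3 h4
    rw [stB_oo hx hkN] at h3
    rw [stB_oo hx hkN'] at h4
    exact C.G.uniq x v hx hvN h2 l hl l' hl' hv hv' k hk k' hk' h3 h4
  · rw [stB_no hvN] at h2 h3 h4
    rw [stB_no hkN] at h3
    rw [stB_no hkN'] at h4
    have p1 := C.nw_pos p k
    have p2 := C.nw_pos p k'
    have q1 : nw f g h κ₁ κ₂ p k = 1 := by omega
    have q2 : nw f g h κ₁ κ₂ p k' = 1 := by omega
    have hkv : k ≠ v := by rintro rfl; omega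
    have hkv' : k' ≠ v := by rintro rfl; omega
    rcases C.nw_one hkN q1 with ⟨rfl, -⟩ | ⟨rfl, -⟩ <;>
      rcases C.nw_one hkN' q2 with ⟨rfl, -⟩ | ⟨rfl, -⟩
    · exact C.G.line_uniq hl hl' hk hv hk' hv' hkv
    · exact (C.hun v hvN (C.G.one hl hk hv hkv) (C.G.one hl' hk' hv' hkv')).elim
    · exact (C.hun v hvN (C.G.one hl' hk' hv' hkv') (C.G.one hl hk hv hkv)).elim
    · exact C.G.line_uniq hl hl' hk hv hk' hv' hkv

/-- an old line and `l1` -/
lemma B_uniq_o1 {x : ℕ} (hx : x < S.N + 7)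
    (h2 : (stB S z w f g h κ₁ κ₂).δ x z ≤ 2) {l : Finset ℕ} (hl : l ∈ S.L)
    (hv : z ∈ l) {k k' : ℕ} (hk : k ∈ l) (hk' : k' ∈ l1 S.N z)
    (h3 : (stB S z w f g h κ₁ κ₂).δ x k < (stB S z w f g h κ₁ κ₂).δ x z)
    (h4 : (stB S z w f g h κ₁ κ₂).δ x k' < (stB S z w f g h κ₁ κ₂).δ x z) : False := by
  have hz := C.hz
  have hw := C.hw
  have hkN := C.G.lt l hl k hk
  have hkz : k ≠ z := by rintro rfl; omega
  rcases cases_pt hx with hx | ⟨p, hp, rfl⟩
  · rw [stB_oo hx hz] at h2 h3 h4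
    rw [stB_oo hx hkN] at h3
    -- the point `k'` is a new one
    have hfx : f x = S.δ x z := by rw [C.hf x hx, C.G.symm x z hx hz]
    have hxw : x = w := by
      rw [mem_l1] at hk'
      have hk'' : k' = z ∨ ∃ q, q ≤ 3 ∧ k' = S.N + q := by
        rcases hk' with h | h | h | h | h
        · exact Or.inl h
        · exact Or.inr ⟨0, by omega, by omega⟩
        · exact Or.inr ⟨1, by omega, by omega⟩
        · exact Or.inr ⟨2, by omega, by omega⟩
        · exact Or.inr ⟨3, by omega, by omega⟩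
      rcases hk'' with rfl | ⟨q, hq, rfl⟩
      · rw [stB_oo hx hz] at h4; omega
      · rw [stB_on hx] at h4
        have h5 : h x < f x := by
          have hpos := C.h_pos x
          unfold nw at h4
          rw [hfx]
          by_cases q0 : q = 0
          · rw [if_pos q0] at h4; exact h4
          · rw [if_neg q0, if_pos hq] at h4
            unfold E at h4
            rw [if_neg (by omega)] at h4
            omega
        have h6 : g x = 0 := by
          have h7 := C.hp x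
          have h8 := C.hc x
          unfold PtOK at h7
          unfold Compat at h8
          omega
        exact C.g0 hx h6
    subst hxw
    -- now `k` is a common neighbour of `z` and `w`
    have hwz : S.δ x z = 2 := by rw [C.G.symm x z hx hz]; exact C.hzw
    have hk0 : S.δ x k ≠ 0 := by
      intro h0
      rw [C.G.zero x k hx hkN] at h0
      subst h0
      exact C.no_zw hl hv hk
    exact C.hun k hkN (C.G.one hl hv hk (fun h => hkz h.symm)) (by omega)
  · rw [stB_no hz] at h2 h3 h4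
    rw [stB_no hkN] at h3
    have p1 := C.nw_pos p k
    have q1 : nw f g h κ₁ κ₂ p k = 1 := by omega
    rcases C.nw_one hkN q1 with ⟨rfl, -⟩ | ⟨rfl, -⟩
    · exact hkz rfl
    · exact C.no_zw hl hv hk

/-- an old line and `l2` -/
lemma B_uniq_o2 {x : ℕ} (hx : x < S.N + 7)
    (h2 : (stB S z w f g h κ₁ κ₂).δ x w ≤ 2) {l : Finset ℕ} (hl : l ∈ S.L)
    (hv : w ∈ l) {k k' : ℕ} (hk : k ∈ l) (hk' : k' ∈ l2 S.N w)
    (h3 : (stB S z w f g h κ₁ κ₂).δ x k < (stB S z w f g h κ₁ κ₂).δ x w)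
    (h4 : (stB S z w f g h κ₁ κ₂).δ x k' < (stB S z w f g h κ₁ κ₂).δ x w) : False := by
  have hz := C.hz
  have hw := C.hw
  have hkN := C.G.lt l hl k hk
  have hkw : k ≠ w := by rintro rfl; omega
  rcases cases_pt hx with hx | ⟨p, hp, rfl⟩
  · rw [stB_oo hx hw] at h2 h3 h4
    rw [stB_oo hx hkN] at h3
    have hgx : g x = S.δ x w := by rw [C.hg x hx, C.G.symm x w hx hw]
    have hxz : x = z := by
      rw [mem_l2] at hk'
      have hk'' : k' = w ∨ ∃ q, (q = 0 ∨ 4 ≤ q) ∧ k' = S.N + q := by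
        rcases hk' with h | h | h | h | h
        · exact Or.inl h
        · exact Or.inr ⟨0, by omega, by omega⟩
        · exact Or.inr ⟨4, by omega, by omega⟩
        · exact Or.inr ⟨5, by omega, by omega⟩
        · exact Or.inr ⟨6, by omega, by omega⟩
      rcases hk'' with rfl | ⟨q, hq, rfl⟩
      · rw [stB_oo hx hw] at h4; omega
      · rw [stB_on hx] at h4
        have h5 : h x < g x := by
          have hpos := C.h_pos x
          unfold nw at h4
          rw [hgx]
          by_cases q0 : q = 0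
          · rw [if_pos q0] at h4; exact h4
          · rw [if_neg q0, if_neg (by omega)] at h4
            unfold E at h4
            rw [if_neg (by omega)] at h4
            omega
        have h6 : f x = 0 := by
          have h7 := C.hp x
          have h8 := C.hc x
          unfold PtOK at h7
          unfold Compat at h8
          omega
        exact C.f0 hx h6
    subst hxz
    have hk0 : S.δ x k ≠ 0 := by
      intro h0
      rw [C.G.zero x k hx hkN] at h0
      subst h0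
      exact C.no_zw hl hk hv
    have hxw : S.δ x w = 2 := C.hzw
    exact C.hun k hkN (by omega) (C.G.one hl hv hk (fun h => hkw h.symm))
  · rw [stB_no hw] at h2 h3 h4
    rw [stB_no hkN] at h3
    have p1 := C.nw_pos p k
    have q1 : nw f g h κ₁ κ₂ p k = 1 := by omega
    rcases C.nw_one hkN q1 with ⟨rfl, -⟩ | ⟨rfl, -⟩
    · exact C.no_zw hl hk hv
    · exact hkw rfl

/-- `l1` and `l2` -/
lemma B_uniq_12 {x : ℕ} (hx : x < S.N + 7)
    (h2 : (stB S z w f g h κ₁ κ₂).δ x S.N ≤ 2)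
    {k k' : ℕ} (hk : k ∈ l1 S.N z) (hk' : k' ∈ l2 S.N w)
    (h3 : (stB S z w f g h κ₁ κ₂).δ x k < (stB S z w f g h κ₁ κ₂).δ x S.N)
    (h4 : (stB S z w f g h κ₁ κ₂).δ x k' < (stB S z w f g h κ₁ κ₂).δ x S.N) : False := by
  have hz := C.hz
  have hw := C.hw
  have hk1 : k = z ∨ ∃ q, q ≤ 3 ∧ k = S.N + q := by
    rw [mem_l1] at hk
    rcases hk with h | h | h | h | h
    · exact Or.inl h
    · exact Or.inr ⟨0, by omega, by omega⟩
    · exact Or.inr ⟨1, by omega, by omega⟩
    · exact Or.inr ⟨2, by omega, by omega⟩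
    · exact Or.inr ⟨3, by omega, by omega⟩
  have hk2 : k' = w ∨ ∃ q, (q = 0 ∨ 4 ≤ q) ∧ k' = S.N + q := by
    rw [mem_l2] at hk'
    rcases hk' with h | h | h | h | h
    · exact Or.inl h
    · exact Or.inr ⟨0, by omega, by omega⟩
    · exact Or.inr ⟨4, by omega, by omega⟩
    · exact Or.inr ⟨5, by omega, by omega⟩
    · exact Or.inr ⟨6, by omega, by omega⟩
  rcases cases_pt hx with hx | ⟨p, hp, rfl⟩
  · have e0 : (stB S z w f g h κ₁ κ₂).δ x S.N = h x := by
      have := stB_on (z := z) (w := w) (f := f) (g := g) (h := h) (κ₁ := κ₁) (κ₂ := κ₂)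
          (p := 0) hx
      rw [Nat.add_zero] at this
      rw [this]; simp [nw]
    rw [e0] at h2 h3 h4
    have hpx := C.hp x
    have hcx := C.hc x
    unfold PtOK at hpx
    unfold Compat at hcx
    have a1 : f x < h x := by
      rcases hk1 with rfl | ⟨q, hq, rfl⟩
      · rw [stB_oo hx hz, C.G.symm x k hx hz, ← C.hf x hx] at h3
        exact h3
      · exfalso
        rw [stB_on hx] at h3
        unfold nw at h3
        by_cases q0 : q = 0
        · rw [if_pos q0] at h3; omega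
        · rw [if_neg q0, if_pos hq] at h3
          unfold E at h3
          rw [if_neg (by omega)] at h3
          omega
    have a2 : g x < h x := by
      rcases hk2 with rfl | ⟨q, hq, rfl⟩
      · rw [stB_oo hx hw, C.G.symm x k' hx hw, ← C.hg x hx] at h4
        exact h4
      · exfalso
        rw [stB_on hx] at h4
        unfold nw at h4
        by_cases q0 : q = 0
        · rw [if_pos q0] at h4; omega
        · rw [if_neg q0, if_neg (by omega)] at h4
          unfold E at h4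
          rw [if_neg (by omega)] at h4
          omega
    omega
  · have e0 : (stB S z w f g h κ₁ κ₂).δ (S.N + p) S.N = nn p 0 := by
      have := stB_nn (S := S) (z := z) (w := w) (f := f) (g := g) (h := h) (κ₁ := κ₁)
          (κ₂ := κ₂) (p := p) (q := 0)
      rw [Nat.add_zero] at this
      exact this
    rw [e0] at h2 h3 h4
    have hn : nn p 0 ≤ 1 := by
      unfold nn; split_ifs <;> omega
    have b1 : p ≤ 3 ∧ p ≠ 0 := by
      rcases hk1 with rfl | ⟨q, hq, rfl⟩
      · rw [stB_no hz] at h3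
        have := C.nw_pos p k
        omega
      · rw [stB_nn] at h3
        unfold nn at h3
        split_ifs at h3 <;> omega
    have b2 : p = 0 ∨ 4 ≤ p := by
      rcases hk2 with rfl | ⟨q, hq, rfl⟩
      · rw [stB_no hw] at h4
        have := C.nw_pos p k'
        omega
      · rw [stB_nn] at h4
        unfold nn at h4
        split_ifs at h4 <;> omega
    omega

lemma B_uniq : ∀ x v, x < (stB S z w f g h κ₁ κ₂).N → v < (stB S z w f g h κ₁ κ₂).N →
    (stB S z w f g h κ₁ κ₂).δ x v ≤ 2 → ∀ l ∈ (stB S z w f g h κ₁ κ₂).L,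
    ∀ l' ∈ (stB S z w f g h κ₁ κ₂).L, v ∈ l → v ∈ l' → ∀ k ∈ l, ∀ k' ∈ l',
    (stB S z w f g h κ₁ κ₂).δ x k < (stB S z w f g h κ₁ κ₂).δ x v →
    (stB S z w f g h κ₁ κ₂).δ x k' < (stB S z w f g h κ₁ κ₂).δ x v → l = l' := by
  have hz := C.hz
  have hw := C.hw
  have hzw := C.hne
  intro x v hx _ h2 l hl l' hl' hv hv' k hk k' hk' h3 h4
  have hx7 : x < S.N + 7 := hx
  have o1 : ∀ m ∈ S.L, v ∈ m → v ∈ l1 S.N z → v = z := by
    intro m hm hvm hv1
    have := C.G.lt m hm v hvm
    rw [mem_l1] at hv1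
    omega
  have o2 : ∀ m ∈ S.L, v ∈ m → v ∈ l2 S.N w → v = w := by
    intro m hm hvm hv1
    have := C.G.lt m hm v hvm
    rw [mem_l2] at hv1
    omega
  have o12 : v ∈ l1 S.N z → v ∈ l2 S.N w → v = S.N := by
    intro h1 h2
    rw [mem_l1] at h1
    rw [mem_l2] at h2
    omega
  rcases mem_L' hl with hlo | rfl | rfl <;> rcases mem_L' hl' with hlo' | rfl | rfl
  · exact C.B_uniq_oo hx7 h2 hlo hlo' hv hv' hk hk' h3 h4
  · have e := o1 _ hlo hv hv'
    subst e
    exact (C.B_uniq_o1 hx7 h2 hlo hv hk hk' h3 h4).elim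
  · have e := o2 _ hlo hv hv'
    subst e
    exact (C.B_uniq_o2 hx7 h2 hlo hv hk hk' h3 h4).elim
  · have e := o1 _ hlo' hv' hv
    subst e
    exact (C.B_uniq_o1 hx7 h2 hlo' hv' hk' hk h4 h3).elim
  · rfl
  · have e := o12 hv hv'
    subst e
    exact (C.B_uniq_12 hx7 h2 hk hk' h3 h4).elim
  · have e := o2 _ hlo' hv' hv
    subst e
    exact (C.B_uniq_o2 hx7 h2 hlo' hv' hk' hk h4 h3).elim
  · have e := o12 hv' hv
    subst e
    exact (C.B_uniq_12 hx7 h2 hk' hk h4 h3).elim
  · rfl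

theorem good : Good (stB S z w f g h κ₁ κ₂) where
  lt := C.B_lt
  card := C.B_card
  symm := C.B_symm
  zero := C.B_zero
  le := C.B_le
  pat := C.B_pat
  adj := C.B_adj
  uniq := C.B_uniq
  lp := lp_step C.G.lt C.hz C.hw C.hne C.G.lp
  chi := chi_step C.G.lt C.hz C.hw C.G.chi

end Ctx

end

/-- Step B: a pair at distance two without a common neighbour gets a common neighbour. -/
theorem stepB {S : St} (G : Good S) {z w : ℕ} (hz : z < S.N) (hw : w < S.N)
    (hzw : S.δ z w = 2)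
    (hun : ∀ y, y < S.N → S.δ z y = 1 → S.δ w y = 1 → False) :
    ∃ S' : St, Good S' ∧ Ext S S' ∧ (∃ l ∈ S'.L, l ∉ S.L ∧ z ∈ l) ∧
      ∃ v, v < S'.N ∧ S'.δ z v = 1 ∧ S'.δ w v = 1 := by
  classical
  set f : ℕ → ℕ := fun x => if x < S.N then S.δ z x else 3 with hf
  set g : ℕ → ℕ := fun x => if x < S.N then S.δ w x else 3 with hg
  have ef : ∀ x, x < S.N → f x = S.δ z x := fun x hx => by simp [hf, hx]
  have eg : ∀ x, x < S.N → g x = S.δ w x := fun x hx => by simp [hg, hx]
  have hwz : S.δ w z = 2 := by rw [G.symm w z hw hz, hzw]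
  have hne : z ≠ w := by
    rintro rfl
    have := (G.zero z z hz hz).2 rfl
    omega
  -- no point is at distances one and two with both on a line
  have aux : ∀ z w x, z < S.N → w < S.N → x < S.N → S.δ w z = 2 →
      (∀ y, y < S.N → S.δ z y = 1 → S.δ w y = 1 → False) → S.δ z x = 1 → S.δ w x ≠ 2 := by
    intro z w x hz hw hx hwz hun h1 h2
    obtain ⟨l, hl, hzl, hxl⟩ := G.adj z x hz hx h1
    obtain ⟨k, hk, h3, h4⟩ := G.pat w hw l hl
    have hkN := G.lt l hl k hk
    have hzx : z ≠ x := by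
      rintro rfl
      have := (G.zero z z hz hz).2 rfl
      omega
    have hkz : z ≠ k := by
      rintro rfl
      have := h4 x hxl (fun h => hzx h.symm)
      omega
    have h5 := h4 z hzl hkz
    exact hun k hkN (G.one hl hzl hk hkz) (by omega)
  have hc : ∀ x, Compat (f x) (g x) := by
    intro x
    by_cases hx : x < S.N
    · rw [ef x hx, eg x hx]
      have l1 := G.le z x hz hx
      have l2 := G.le w x hw hx
      have z1 := G.zero z x hz hx
      have z2 := G.zero w x hw hx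
      have a1 := aux z w x hz hw hx hwz hun
      have a2 := aux w z x hw hz hx hzw (fun y hy h1 h2 => hun y hy h2 h1)
      have a3 : ¬ (S.δ z x = 1 ∧ S.δ w x = 1) := fun h => hun x hx h.1 h.2
      have a1' : ¬ (S.δ z x = 1 ∧ S.δ w x = 2) := fun h => a1 h.1 h.2
      have a2' : ¬ (S.δ w x = 1 ∧ S.δ z x = 2) := fun h => a2 h.1 h.2
      unfold Compat
      by_cases c1 : z = x
      · subst c1
        have := z1.2 rfl
        omega
      · by_cases c2 : w = x
        · subst c2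
          have := z2.2 rfl
          omega
        · have n1 : S.δ z x ≠ 0 := fun h => c1 (z1.1 h)
          have n2 : S.δ w x ≠ 0 := fun h => c2 (z2.1 h)
          omega
    · simp [hf, hg, hx, Compat]
  obtain ⟨h, κ₁, κ₂, hp, hl⟩ := G.lp f g hc
    (fun l hl => (G.pat z hz l hl).congr fun x hx => ef x (G.lt l hl x hx))
    (fun l hl => (G.pat w hw l hl).congr fun x hx => eg x (G.lt l hl x hx))
  have C : Ctx S z w f g h κ₁ κ₂ := ⟨G, hz, hw, hzw, hun, ef, eg, hc, hp, hl⟩
  refine ⟨stB S z w f g h κ₁ κ₂, C.good, ⟨?_, ?_, ?_⟩, ⟨l1 S.N z, l1_mem, ?_, by simp [l1]⟩,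
    ⟨S.N + 0, ?_, ?_, ?_⟩⟩
  · show S.N ≤ S.N + 7
    omega
  · exact Set.subset_union_left
  · intro x y hx hy; exact stB_oo hx hy
  · intro hmem
    have := G.lt _ hmem S.N (by simp [l1])
    omega
  · show S.N + 0 < S.N + 7
    omega
  · rw [stB_on hz]
    simp only [nw, if_true]
    exact C.hhz
  · rw [stB_on hw]
    simp only [nw, if_true]
    exact C.hhw

end Pool.Agent.SemiHex
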